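import Pool.Agent.N692.PM.Tow

/-!
# Inertia and decomposition groups in a compositum

`Ω = L M` with `M / K` Galois. The restriction `Gal (Ω / L) → Gal (M / K)` is injective and sends the
inertia (decomposition) group of a prime of `Ω` to that of the prime of `M` below.
-/

set_option autoImplicit false
set_option linter.all false

open NumberField IsDedekindDomain
open scoped Pointwise

namespace Pool.Agent.H14U

open Pool.Agent.N692.PMTOW

section res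

variable {K L M Ω : Type} [Field K] [Field L] [Field M] [Field Ω] [Algebra K L] [Algebra K M]
  [Algebra L Ω] [Algebra M Ω] [Algebra K Ω] [IsScalarTower K L Ω] [IsScalarTower K M Ω]

/-- The restriction. -/
noncomputable def res (K M : Type) {L Ω : Type} [Field K] [Field L] [Field M] [Field Ω]
    [Algebra K L] [Algebra K M] [Algebra L Ω] [Algebra M Ω] [Algebra K Ω] [IsScalarTower K L Ω]
    [IsScalarTower K M Ω] [Normal K M] (σ : Ω ≃ₐ[L] Ω) : M ≃ₐ[K] M :=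
  (σ.restrictScalars K).restrictNormal M

theorem res_apply [Normal K M] (σ : Ω ≃ₐ[L] Ω) (x : M) :
    algebraMap M Ω (res K M σ x) = σ (algebraMap M Ω x) :=
  (σ.restrictScalars K).restrictNormal_commutes M x

theorem res_one [Normal K M] (htop : im K M Ω ⊔ im K L Ω = ⊤) {σ : Ω ≃ₐ[L] Ω}
    (h : res K M σ = 1) : σ = 1 := by
  ext x
  have hx := adj_top (K := K) (L := L) (M := M) htop x
  rw [AlgEquiv.one_apply]
  induction hx using IntermediateField.adjoin_induction with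
  | mem y hy =>
    obtain ⟨m, rfl⟩ := hy
    rw [← res_apply (K := K), h, AlgEquiv.one_apply]
  | algebraMap y => rw [AlgEquiv.commutes]
  | add y z _ _ h1 h2 => rw [map_add, h1, h2]
  | inv y _ h1 => rw [map_inv₀, h1]
  | mul y z _ _ h1 h2 => rw [map_mul, h1, h2]

end res

theorem smul_coe {K M : Type} [Field K] [Field M] [Algebra K M] (σ : M ≃ₐ[K] M) (x : 𝓞 M) :
    ((σ • x : 𝓞 M) : M) = σ (x : M) :=
  algebraMap.smul' σ x M

section num

variable {K L M Ω : Type} [Field K] [Field L] [Field M] [Field Ω]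
  [NumberField K] [NumberField L] [NumberField M] [NumberField Ω] [Algebra K L] [Algebra K M]
  [Algebra L Ω] [Algebra M Ω] [Algebra K Ω] [IsScalarTower K L Ω] [IsScalarTower K M Ω]
  [IsGalois K M]

theorem map_smul_res (σ : Ω ≃ₐ[L] Ω) (x : 𝓞 M) :
    algebraMap (𝓞 M) (𝓞 Ω) (res K M σ • x) = σ • algebraMap (𝓞 M) (𝓞 Ω) x := by
  apply RingOfIntegers.ext
  have e : ∀ y : 𝓞 M, ((algebraMap (𝓞 M) (𝓞 Ω) y : 𝓞 Ω) : Ω) = algebraMap M Ω (y : M) :=
    fun y => rfl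
  rw [e, smul_coe, smul_coe, res_apply, e]

/-- The inertia group of `Ω / L` is trivial. -/
theorem inertia_bot (htop : im K M Ω ⊔ im K L Ω = ⊤) (P : Ideal (𝓞 Ω)) 
    (h : (P.comap (algebraMap (𝓞 M) (𝓞 Ω))).inertia Gal(M/K) = ⊥) :
    P.inertia Gal(Ω/L) = ⊥ := by
  rw [eq_bot_iff]
  intro σ hσ
  rw [Subgroup.mem_bot]
  refine res_one (K := K) (M := M) htop ?_
  have h1 : res K M σ ∈ (P.comap (algebraMap (𝓞 M) (𝓞 Ω))).inertia Gal(M/K) := by
    intro x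
    have h2 := hσ (algebraMap (𝓞 M) (𝓞 Ω) x)
    change algebraMap (𝓞 M) (𝓞 Ω) (res K M σ • x - x) ∈ P
    rw [map_sub, map_smul_res]
    exact h2
  rw [h] at h1
  exact Subgroup.mem_bot.1 h1

/-- The decomposition group of `Ω / L` is trivial. -/
theorem stab_bot (htop : im K M Ω ⊔ im K L Ω = ⊤) (P : Ideal (𝓞 Ω))
    (h : MulAction.stabilizer Gal(M/K) (P.comap (algebraMap (𝓞 M) (𝓞 Ω))) = ⊥) :
    MulAction.stabilizer Gal(Ω/L) P = ⊥ := by
  rw [eq_bot_iff]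
  intro σ hσ
  rw [Subgroup.mem_bot]
  refine res_one (K := K) (M := M) htop ?_
  have h1 : res K M σ ∈ MulAction.stabilizer Gal(M/K) (P.comap (algebraMap (𝓞 M) (𝓞 Ω))) := by
    rw [MulAction.mem_stabilizer_iff] at hσ ⊢
    ext x
    rw [Ideal.mem_pointwise_smul_iff_inv_smul_mem, Ideal.mem_comap, Ideal.mem_comap]
    have e : algebraMap (𝓞 M) (𝓞 Ω) ((res K M σ)⁻¹ • x) = σ⁻¹ • algebraMap (𝓞 M) (𝓞 Ω) x := by
      rw [eq_inv_smul_iff, ← map_smul_res (K := K), smul_inv_smul]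
    rw [e, ← Ideal.mem_pointwise_smul_iff_inv_smul_mem, hσ]
  rw [h] at h1
  exact Subgroup.mem_bot.1 h1

end num

section val

variable {L Ω : Type} [Field L] [Field Ω] [NumberField L] [NumberField Ω] [Algebra L Ω]
  [IsGalois L Ω]

/-- If the inertia group is trivial the valuations agree. -/
theorem val_eq (𝔭 : HeightOneSpectrum (𝓞 L)) (𝔓 : HeightOneSpectrum (𝓞 Ω))
    (hP : 𝔓.asIdeal.LiesOver 𝔭.asIdeal) (h : 𝔓.asIdeal.inertia Gal(Ω/L) = ⊥) (x : L) :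
    𝔓.valuation Ω (algebraMap L Ω x) = 𝔭.valuation L x := by
  haveI : Finite (𝓞 L ⧸ 𝔭.asIdeal) := Ideal.finiteQuotientOfFreeOfNeBot _ 𝔭.ne_bot
  have h1 := Ideal.card_inertia_eq_ramificationIdxIn (G := Gal(Ω/L)) 𝔭.asIdeal 𝔓.asIdeal
  rw [h, Subgroup.card_bot,
    Ideal.ramificationIdxIn_eq_ramificationIdx 𝔭.asIdeal 𝔓.asIdeal Gal(Ω/L)] at h1
  have h2 := HeightOneSpectrum.valuation_liesOver Ω 𝔭 𝔓 x
  rw [Ideal.ramificationIdx'_eq_ramificationIdx _ _ 𝔭.ne_bot, ← h1, pow_one] at h2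
  exact h2.symm

/-- If the decomposition group is trivial the residue fields agree. -/
theorem res_eq (𝔭 : HeightOneSpectrum (𝓞 L)) (𝔓 : HeightOneSpectrum (𝓞 Ω))
    (hP : 𝔓.asIdeal.LiesOver 𝔭.asIdeal) (h : MulAction.stabilizer Gal(Ω/L) 𝔓.asIdeal = ⊥)
    (z : 𝓞 Ω) : ∃ y : 𝓞 L, z - algebraMap (𝓞 L) (𝓞 Ω) y ∈ 𝔓.asIdeal := by
  haveI : Finite (𝓞 L ⧸ 𝔭.asIdeal) := Ideal.finiteQuotientOfFreeOfNeBot _ 𝔭.ne_bot
  have h1 := Ideal.card_stabilizer_eq_card_inertia_mul_finrank (G := Gal(Ω/L)) 𝔭.asIdeal 𝔓.asIdeal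
  rw [h, Subgroup.card_bot] at h1
  have h2 : 𝔓.asIdeal.inertiaDeg (𝓞 L) = 1 := Nat.eq_one_of_mul_eq_one_left h1.symm
  haveI := 𝔭.isMaximal
  haveI := 𝔓.isMaximal
  rw [Ideal.inertiaDeg_eq_of_isMaximal 𝔭.asIdeal 𝔓.asIdeal] at h2
  letI : Field (𝓞 L ⧸ 𝔭.asIdeal) := Ideal.Quotient.field _
  have h3 : Function.Surjective (algebraMap (𝓞 L ⧸ 𝔭.asIdeal) (𝓞 Ω ⧸ 𝔓.asIdeal)) := by
    intro z
    have h6 : z ∈ (⊥ : Subalgebra (𝓞 L ⧸ 𝔭.asIdeal) (𝓞 Ω ⧸ 𝔓.asIdeal)) := by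
      rw [Subalgebra.bot_eq_top_of_finrank_eq_one h2]
      exact Algebra.mem_top
    exact Algebra.mem_bot.1 h6
  obtain ⟨y, hy⟩ := h3 (Ideal.Quotient.mk _ z)
  obtain ⟨y, rfl⟩ := Ideal.Quotient.mk_surjective y
  refine ⟨y, ?_⟩
  rw [← Ideal.Quotient.eq, ← hy]
  rfl

end val

end Pool.Agent.H14U
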