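import Pool.Agent.N922.PQ.Cnt2

/-!
# The 2-Selmer group over all admissible extensions at once

The conditions on the extension `M` are stated without a generator (`Spl`), and the twist is chosen
before the extension. Adapted from `Pool.Agent.N922.PQ.Big3` and `Big6` (helper922).
-/

set_option autoImplicit false
set_option linter.all false

open Polynomial IsDedekindDomain WeierstrassCurve WeierstrassCurve.Affine NumberField
open Pool.Agent.TH115.GD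
open scoped Classical IntermediateField

namespace Pool.Agent.H14U

open Pool.Agent.N922.PQ
open Pool.Agent.N874.PP (Tup chA chB gq tau Two Ev Sq1 U0 sW IsBeta Rt)
open Pool.Agent.N874.PM (PLoc Lies SelR ShaR S_LOC1M S_LOC2M)

section spl

variable (L M Ω O O' R : Type) [Field L] [Field M] [Field Ω] [Algebra L Ω]
  [CommRing O] [IsDedekindDomain O] [Algebra O L] [IsFractionRing O L]
  [CommRing O'] [IsDedekindDomain O'] [Algebra O' Ω] [IsFractionRing O' Ω]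
  [CommRing R] [IsDedekindDomain R] [Algebra R M] [IsFractionRing R M]

/-- The set `T` contains the prime numbers which are ramified in `M`; the residue fields at the
primes in `J` are prime fields; the same for `Ω / L`. -/
structure Spl (J T : Finset ℤ) : Prop where
  um : ∀ w : HeightOneSpectrum R, (∀ P ∈ T, ¬ Ov P w) → ∀ P : ℤ, IsPr P → Ov P w →
    w.valuation M (P : M) = WithZero.exp (-1 : ℤ)
  sm : ∀ Q ∈ J, ∀ w : HeightOneSpectrum R, Ov Q w → ∀ z : R, ∃ n : ℤ, z - (n : R) ∈ w.asIdeal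
  ud : ∀ 𝔓' : HeightOneSpectrum O', (∀ P ∈ T, ¬ Ov P 𝔓') → ∃ 𝔓 : HeightOneSpectrum O,
    ∀ x : L, 𝔓'.valuation Ω (algebraMap L Ω x) = 𝔓.valuation L x
  uu : ∀ 𝔓 : HeightOneSpectrum O, (∀ P ∈ T, ¬ Ov P 𝔓) → ∃ 𝔓' : HeightOneSpectrum O',
    ∀ x : L, 𝔓'.valuation Ω (algebraMap L Ω x) = 𝔓.valuation L x
  sd : ∀ Q ∈ J, ∀ 𝔓' : HeightOneSpectrum O', Ov Q 𝔓' → ∀ s : Ω, s ≠ 0 →
    ∃ s₀ : L, 𝔓'.valuation Ω (s - algebraMap L Ω s₀) < 𝔓'.valuation Ω s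

end spl

/-- The valuation of a squarefree integer at an unramified prime. -/
theorem val_sqf {M R : Type} [Field M] [CommRing R] [IsDedekindDomain R] [Algebra R M]
    [IsFractionRing R M] {w : HeightOneSpectrum R} {P : ℤ} (hP : IsPr P) (h1 : Ov P w)
    (h2 : w.valuation M (P : M) = WithZero.exp (-1 : ℤ)) {r : ℤ} (hr : Squarefree r) :
    WithZero.exp (-1 : ℤ) ≤ w.valuation M (r : M) := by
  by_cases hd : P ∣ r
  · obtain ⟨m, rfl⟩ := hd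
    have hm : ¬ P ∣ m := by
      rintro ⟨k, rfl⟩
      have h3 := hr P ⟨k, by ring⟩
      exact hP.2.not_unit h3
    have h4 : ¬ Ov m w := fun h =>
      one_mem_of ((hP.2.irreducible.coprime_iff_not_dvd).2 hm) h1 h
    rw [Int.cast_mul, map_mul, h2, val_eq_of (L := M) m w h4, mul_one]
  · have h4 : ¬ Ov r w := fun h =>
      one_mem_of ((hP.2.irreducible.coprime_iff_not_dvd).2 hd) h1 h
    rw [val_eq_of (L := M) r w h4, ← WithZero.exp_zero, WithZero.exp_le_exp]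
    norm_num

section top

variable {L M Ω : Type} {O O' R : Type} [Field L] [NumberField L] [Field M] [NumberField M]
  [Field Ω] [NumberField Ω] [Algebra L Ω] [Algebra M Ω]
  [CommRing O] [IsDedekindDomain O] [Algebra O L] [IsFractionRing O L] [IsIntegralClosure O ℤ L]
  [CommRing O'] [IsDedekindDomain O'] [Algebra O' Ω] [IsFractionRing O' Ω]
  [IsIntegralClosure O' ℤ Ω]
  [CommRing R] [IsDedekindDomain R] [Algebra R M] [IsFractionRing R M] [IsIntegralClosure R ℤ M]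

/-- The element `Q θ` has odd valuation. -/
theorem odd_top' (hEXQ : S_EXQ) {J T : Finset ℤ} (hsp : Spl L M Ω O O' R J T) {a b : ℤ} {θ : L}
    (hc : IsCub a b θ) (hsq : Squarefree (dsc a b)) {Q : ℤ} (hQ : Prime Q) (hb : Q ∣ b)
    (hns : ∀ z : ℤ, ¬ Q ∣ z ^ 2 + a) (𝔓 : HeightOneSpectrum O') (h1 : Ov Q 𝔓)
    (hδ : ∀ P ∈ T, ¬ Ov P 𝔓) (h2 : 𝔓.valuation Ω (algebraMap L Ω θ) = 1) :
    ¬ Ev 𝔓 ((Q : Ω) * algebraMap L Ω θ) := by
  obtain ⟨𝔭, hv⟩ := hsp.ud 𝔓 hδ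
  obtain ⟨𝔓₁, 𝔮, h3, h4, h5, h7, h8, h9⟩ := hEXQ L O a b θ hc hsq Q hQ hb hns
  have e : (Q : Ω) * algebraMap L Ω θ = algebraMap L Ω ((Q : L) * θ) := by
    rw [map_mul, map_intCast]
  rw [e, ev_down hv]
  rcases h9 𝔭 ((ov_down hv Q).1 h1) with rfl | rfl
  · rw [hv] at h2
    exact absurd h2 h5.ne
  · exact h8

/-- `- a` is not a square in the residue field. -/
theorem ns_top' {J T : Finset ℤ} (hsp : Spl L M Ω O O' R J T) {a : ℤ} {Q : ℤ} (hQ : Prime Q)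
    (hQJ : Q ∈ J) (hns : ∀ z : ℤ, ¬ Q ∣ z ^ 2 + a) (w : HeightOneSpectrum R) (h1 : Ov Q w)
    (z : M) (hz : w.valuation M z ≤ 1) :
    ¬ w.valuation M (z ^ 2 + (a : M)) < 1 := by
  intro hlt
  -- an integer close to `z`
  obtain ⟨r, hr⟩ := w.exists_valuation_sub_lt_of_integer hz 1
  rw [Units.val_one] at hr
  obtain ⟨z₁, hz₁⟩ := hsp.sm Q hQJ w h1 r
  have h2 : w.valuation M (z - (z₁ : M)) < 1 := by
    have e : z - (z₁ : M) = algebraMap R M (r - (z₁ : R)) - (algebraMap R M r - z) := by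
      rw [map_sub, map_intCast]
      ring
    rw [e]
    refine lt_of_le_of_lt (Valuation.map_sub _ _ _) (max_lt ?_ hr)
    rw [HeightOneSpectrum.valuation_lt_one_iff_mem]
    exact hz₁
  have h3 : w.valuation M (((z₁ ^ 2 + a : ℤ)) : M) < 1 := by
    have e : (((z₁ ^ 2 + a : ℤ)) : M) = (z ^ 2 + (a : M)) -
        (z - (z₁ : M)) * (z + (z₁ : M)) := by
      push_cast
      ring
    rw [e]
    refine lt_of_le_of_lt (Valuation.map_sub _ _ _) (max_lt hlt ?_)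
    rw [map_mul]
    have h4 : w.valuation M (z + (z₁ : M)) ≤ 1 :=
      (Valuation.map_add _ _ _).trans (max_le hz (val_le z₁ w))
    exact lt_of_le_of_lt (mul_le_mul' le_rfl h4) (by rwa [mul_one])
  have h5 : Ov (z₁ ^ 2 + a) w := (ov_val (L := M) _ w).2 h3
  -- hence `Q` divides it
  apply hns z₁
  by_contra hnd
  exact one_mem_of ((hQ.irreducible.coprime_iff_not_dvd).2 hnd) h1 h5

theorem cnd_top' (hEXQ : S_EXQ) (hLIE : S_LIE) (hLOC1M : S_LOC1M)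
    (hLOC2M : S_LOC2M) {a b : ℤ} {θ : L} {X' : ℕ} {S J T : Finset ℤ}
    {s A B : ℤ → ℤ} (hc : IsCub a b θ) (hS : GoodS S s)
    (hF : Fam X' S s T A B a b) (hsp : Spl L M Ω O O' R J T)
    (hT : GoodT T A B) (hdis : Disjoint S T) (hJ : J ⊆ S) {h : M[X]}
    (hloc : ∀ w : HeightOneSpectrum R, ¬ Ov 2 w → PLoc (w.adicCompletion M)
      (((a * (∏ Q ∈ J, Q) ^ 2 : ℤ)) : M) (((b * (∏ Q ∈ J, Q) ^ 3 : ℤ)) : M) h)
    (h0 : aeval (((∏ Q ∈ J, Q : ℤ) : Ω) * algebraMap L Ω θ) h ≠ 0) :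
    Cnd O' J T (algebraMap L Ω θ) (aeval (((∏ Q ∈ J, Q : ℤ) : Ω) * algebraMap L Ω θ) h)
    := by
  haveI : Algebra.IsIntegral ℤ R := IsIntegralClosure.isIntegral_algebra ℤ M
  haveI : Algebra.IsIntegral ℤ O' := IsIntegralClosure.isIntegral_algebra ℤ Ω
  haveI : CharZero R := charZero_of R M
  haveI : CharZero O' := charZero_of O' Ω
  have hT' : ∀ P ∈ T, IsPr P := fun P hP => (hT.2.2 P hP).1
  have hroot : (algebraMap L Ω θ) ^ 3 + algebraMap M Ω (a : M) * algebraMap L Ω θ +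
      algebraMap M Ω (b : M) = 0 := by
    have h1 := congrArg (algebraMap L Ω) hc.root
    rw [map_zero, map_add, map_add, map_mul, map_pow, map_intCast, map_intCast] at h1
    rw [map_intCast, map_intCast]
    exact h1
  -- at the primes in `J`
  have key : ∀ Q ∈ J, ∀ 𝔓 : HeightOneSpectrum O', Ov Q 𝔓 →
      (𝔓.valuation Ω (algebraMap L Ω θ) = 1 → U0 𝔓 ((Q : Ω) * algebraMap L Ω θ)
        (aeval (((∏ Q ∈ J, Q : ℤ) : Ω) * algebraMap L Ω θ) h)) ∧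
      (𝔓.valuation Ω (algebraMap L Ω θ) < 1 →
        Ev 𝔓 (aeval (((∏ Q ∈ J, Q : ℤ) : Ω) * algebraMap L Ω θ) h)) := by
    intro Q hQ 𝔓 h𝔓
    have hQS := hJ hQ
    obtain ⟨w, hw, hO⟩ := hLIE M Ω R O' 𝔓
    have hQw : Ov Q w := (hO Q).2 h𝔓
    have hδw : ∀ P ∈ T, ¬ Ov P w := fun P hP => not_ov_T hS hT' hdis hQS hP hQw
    have hδ𝔓 : ∀ P ∈ T, ¬ Ov P 𝔓 := fun P hP => not_ov_T hS hT' hdis hQS hP h𝔓
    have h2w : ¬ Ov 2 w := hδw 2 hT.1
    have h3w : ¬ Ov 3 w := hδw 3 hT.2.1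
    haveI : Finite (R ⧸ w.asIdeal) :=
      Pool.Agent.N42.PQ.finite_residue (L := M) (hS Q hQS).1.2.ne_zero hQw
    have hprod : (∏ P ∈ J, P) = Q * ∏ P ∈ J.erase Q, P := (Finset.mul_prod_erase J id hQ).symm
    have hϖ : w.valuation M (Q : M) = WithZero.exp (-1 : ℤ) := hsp.um w hδw Q (hS Q hQS).1 hQw
    have hD' : w.valuation M (((∏ P ∈ J.erase Q, P : ℤ)) : M) = 1 := by
      refine val_eq_of _ w fun h => ?_
      obtain ⟨P, hP, hP'⟩ := ov_prod h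
      have hPS := hJ (Finset.mem_of_mem_erase hP)
      exact Finset.ne_of_mem_erase hP (below_unique (hS P hPS).1 (hS Q hQS).1 hP' hQw)
    have hb1 : w.valuation M (b : M) < 1 := by
      rw [← ov_val]
      obtain ⟨c, hc⟩ := hF.rb Q hQS
      unfold Ov at hQw ⊢
      rw [hc, Int.cast_mul]
      exact Ideal.mul_mem_right _ _ hQw
    have hns := fun z hz => ns_top' hsp (a := a) (hS Q hQS).1.2 hQ
      (fam_ns hS hF hQS) w hQw z hz
    have e1 : (((a * (∏ Q ∈ J, Q) ^ 2 : ℤ)) : M) = (a : M) *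
        ((Q : M) * (((∏ P ∈ J.erase Q, P : ℤ)) : M)) ^ 2 := by
      rw [hprod]
      simp only [Int.cast_mul, Int.cast_pow]
    have e2 : (((b * (∏ Q ∈ J, Q) ^ 3 : ℤ)) : M) = (b : M) *
        ((Q : M) * (((∏ P ∈ J.erase Q, P : ℤ)) : M)) ^ 3 := by
      rw [hprod]
      simp only [Int.cast_mul, Int.cast_pow]
    have e3 : algebraMap M Ω ((Q : M) * (((∏ P ∈ J.erase Q, P : ℤ)) : M)) =
        (((∏ P ∈ J, P : ℤ)) : Ω) := by
      rw [hprod, map_mul, map_intCast, map_intCast, Int.cast_mul]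
    have hl := hloc w h2w
    rw [e1, e2] at hl
    have h2 := hLOC2M M Ω R O' w 𝔓 hw (a : M) (b : M)
      (Q : M) (((∏ P ∈ J.erase Q, P : ℤ)) : M) (algebraMap L Ω θ) h hroot
      (val_six h2w h3w) (val_le a w) hb1 hϖ hD' hns hl (by rw [e3]; exact h0)
    rw [e3, map_intCast (algebraMap M Ω)] at h2
    refine ⟨fun h3 => h2.1 h3 ?_, h2.2⟩
    exact odd_top' hEXQ hsp hc hF.sq (hS Q hQS).1.2 (hF.rb Q hQS) (fam_ns hS hF hQS) 𝔓
      h𝔓 hδ𝔓 h3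
  refine ⟨fun 𝔓 h1 h2 => ?_, fun Q hQ 𝔓 h1 h2 => (key Q hQ 𝔓 h1).1 h2,
    fun Q hQ 𝔓 h1 h2 => (key Q hQ 𝔓 h1).2 h2⟩
  obtain ⟨w, hw, hO⟩ := hLIE M Ω R O' 𝔓
  have hnT : ∀ P ∈ T, ¬ Ov P w := fun P hP h => h1 P hP ((hO P).1 h)
  have hD : w.valuation M (((∏ Q ∈ J, Q : ℤ)) : M) = 1 := by
    refine val_eq_of _ w fun h => ?_
    obtain ⟨Q, hQ, h'⟩ := ov_prod h
    exact h2 Q hQ ((hO Q).1 h')
  have hdisc : WithZero.exp (-1 : ℤ) ≤ w.valuation M (4 * (a : M) ^ 3 +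
      27 * (b : M) ^ 2) := by
    have e : 4 * (a : M) ^ 3 + 27 * (b : M) ^ 2 = ((dsc a b : ℤ) : M) := by
      simp [dsc]
    rw [e]
    obtain ⟨P, hP, hPw⟩ := exists_below w
    exact val_sqf hP hPw (hsp.um w hnT P hP hPw) hF.sq
  have e3 : algebraMap M Ω (((∏ P ∈ J, P : ℤ)) : M) = (((∏ P ∈ J, P : ℤ)) : Ω) :=
    map_intCast _ _
  have hl := hloc w (hnT 2 hT.1)
  have hl' : PLoc (w.adicCompletion M) ((a : M) * (((∏ Q ∈ J, Q : ℤ)) : M) ^ 2)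
      ((b : M) * (((∏ Q ∈ J, Q : ℤ)) : M) ^ 3) h := by
    have e1 : (((a * (∏ Q ∈ J, Q) ^ 2 : ℤ)) : M) = (a : M) * (((∏ Q ∈ J, Q : ℤ)) : M) ^ 2 := by
      simp only [Int.cast_mul, Int.cast_pow]
    have e2 : (((b * (∏ Q ∈ J, Q) ^ 3 : ℤ)) : M) = (b : M) * (((∏ Q ∈ J, Q : ℤ)) : M) ^ 3 := by
      simp only [Int.cast_mul, Int.cast_pow]
    rw [← e1, ← e2]
    exact hl
  have h3 := hLOC1M M Ω R O' w 𝔓 hw (a : M) (b : M)
    (((∏ P ∈ J, P : ℤ)) : M) (algebraMap L Ω θ) h hroot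
    (val_six (hnT 2 hT.1) (hnT 3 hT.2.1)) (val_le a w) (val_le b w) hD hdisc hl'
    (by rw [e3]; exact h0)
  rw [e3] at h3
  exact h3

end top

section abs

variable {L M Ω : Type} {O O' R : Type} [Field L] [NumberField L] [Field M] [NumberField M]
  [Field Ω] [NumberField Ω] [Algebra L Ω] [Algebra M Ω]
  [CommRing O] [IsDedekindDomain O] [Algebra O L] [IsFractionRing O L] [IsIntegralClosure O ℤ L]
  [CommRing O'] [IsDedekindDomain O'] [Algebra O' Ω] [IsFractionRing O' Ω]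
  [IsIntegralClosure O' ℤ Ω]
  [CommRing R] [IsDedekindDomain R] [Algebra R M] [IsFractionRing R M] [IsIntegralClosure R ℤ M]
  [IsGalois ℚ M]

/-- The 2-Selmer group over `M`, for a twist chosen before. -/
theorem selR_abs' (H : Parts2) {a b : ℤ} {θ : L} {X' : ℕ}
    {S T : Finset ℤ} {s A B : ℤ → ℤ} (hc : IsCub a b θ) (hS : GoodS S s)
    (hF : Fam X' S s T A B a b) (h4 : (4 : ℤ) ∣ a - b)
    (hT : GoodT T A B) {J : Finset ℤ} (hJ : J ⊆ S)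
    (hsel : ∀ α : L, α ≠ 0 → IsSquare (Algebra.norm ℚ α) → Loc2 a b θ α →
      (∀ 𝔓 : HeightOneSpectrum O, (∀ Q ∈ J, ¬ Ov Q 𝔓) → Ev 𝔓 α) →
      (∀ Q ∈ J, ∀ 𝔓 : HeightOneSpectrum O, Ov Q 𝔓 → 𝔓.valuation L θ = 1 →
        U0 𝔓 ((Q : L) * θ) α) →
      (∀ Q ∈ J, ∀ 𝔓 : HeightOneSpectrum O, Ov Q 𝔓 → 𝔓.valuation L θ < 1 → Ev 𝔓 α) →
      IsSquare α)
    (hsp : Spl L M Ω O O' R J T) (hdis : Disjoint S T)
    {n : ℕ} (hM : Module.finrank ℚ M = 2 ^ n) (hΩ : Module.finrank M Ω = 3)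
    (htop : M⟮algebraMap L Ω θ⟯ = ⊤) (ha : Odd a) (hb : Odd b)
    (hur : ∀ w : HeightOneSpectrum R, Ov 2 w → w.valuation M 2 = WithZero.exp (-1 : ℤ)) :
    SelR R (sW (((a * (∏ Q ∈ J, Q) ^ 2 : ℤ)) : M) (((b * (∏ Q ∈ J, Q) ^ 3 : ℤ)) : M)) := by
  haveI : Algebra.IsIntegral ℤ R := IsIntegralClosure.isIntegral_algebra ℤ M
  haveI : Algebra.IsIntegral ℤ O' := IsIntegralClosure.isIntegral_algebra ℤ Ω
  haveI : Algebra.IsIntegral ℤ O := IsIntegralClosure.isIntegral_algebra ℤ L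
  haveI : CharZero R := charZero_of R M
  haveI : CharZero O' := charZero_of O' Ω
  haveI : CharZero O := charZero_of O L
  have h6M : (6 : M) ≠ 0 := by norm_num
  have h2K : (2 : ℚ) ≠ 0 := by norm_num
  have hT' : ∀ P ∈ T, IsPr P := fun P hP => (hT.2.2 P hP).1
  have hnr : ∀ w : HeightOneSpectrum R, Ov 2 w → ∀ t : w.adicCompletion M,
      t ^ 3 + (a : w.adicCompletion M) * t + (b : w.adicCompletion M) ≠ 0 :=
    fun w hw => H.nr M R n hM w hw a b ha hb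
  have hD1 : 0 < (∏ Q ∈ J, Q) := Finset.prod_pos fun Q hQ => (hS Q (hJ hQ)).1.1
  have hD0 : (∏ Q ∈ J, Q) ≠ 0 := hD1.ne'
  have hD8 : (∏ Q ∈ J, Q) % 8 = 1 := prod_mod8 fun Q hQ => (hS Q (hJ hQ)).2.1
  intro f hf h2f hloc
  obtain ⟨w₀, hw₀⟩ := exists_over R
  have hirrD := irr_tw' (F := M) (a := a * (∏ Q ∈ J, Q) ^ 2) (b := b * (∏ Q ∈ J, Q) ^ 3)
    (fun t ht => by
      apply no_root_tw' (hnr w₀ hw₀) hD0 (algebraMap M _ t)
      have h1 := congrArg (algebraMap M (w₀.adicCompletion M)) ht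
      rw [map_zero, map_add, map_add, map_mul, map_pow, map_intCast, map_intCast] at h1
      exact h1)
  have hdisc : 4 * (((a * (∏ Q ∈ J, Q) ^ 2 : ℤ)) : M) ^ 3 +
      27 * (((b * (∏ Q ∈ J, Q) ^ 3 : ℤ)) : M) ^ 2 ≠ 0 := by
    have e : 4 * (((a * (∏ Q ∈ J, Q) ^ 2 : ℤ)) : M) ^ 3 +
      27 * (((b * (∏ Q ∈ J, Q) ^ 3 : ℤ)) : M) ^ 2 =
        (((∏ Q ∈ J, Q) ^ 6 * dsc a b : ℤ) : M) := by
      simp only [dsc, Int.cast_mul, Int.cast_add, Int.cast_pow, Int.cast_ofNat]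
      ring
    rw [e, Int.cast_ne_zero]
    exact mul_ne_zero (pow_ne_zero _ hD0) hF.sq.ne_zero
  have hroot : (algebraMap L Ω θ) ^ 3 + (a : Ω) * algebraMap L Ω θ + (b : Ω) = 0 := by
    have h1 := congrArg (algebraMap L Ω) hc.root
    rw [map_zero, map_add, map_add, map_mul, map_pow, map_intCast, map_intCast] at h1
    exact h1
  have hmin : minpoly M (algebraMap L Ω θ) = ff M a b := by
    haveI : FiniteDimensional M Ω := FiniteDimensional.of_finrank_pos (by rw [hΩ]; norm_num)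
    have hint : IsIntegral M (algebraMap L Ω θ) := Algebra.IsIntegral.isIntegral _
    have hd : minpoly M (algebraMap L Ω θ) ∣ ff M a b := by
      apply minpoly.dvd
      simp only [ff, map_add, map_mul, map_pow, aeval_X, aeval_C, map_intCast]
      exact hroot
    have hdeg : (minpoly M (algebraMap L Ω θ)).natDegree = 3 := by
      rw [(Field.primitive_element_iff_minpoly_natDegree_eq M _).1 htop, hΩ]
    exact (Polynomial.eq_of_monic_of_dvd_of_natDegree_le (minpoly.monic hint) (ff_monic M a b) hd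
      (by rw [hdeg, ff_deg])).symm
  obtain ⟨β, hβ⟩ := H.p.gb M _ _ h6M hdisc hirrD f hf h2f
  obtain ⟨h, hh, hn⟩ := H.p.gn M _ _ h6M hdisc hirrD f hf h2f β hβ
  have hRt : Rt (((a * (∏ Q ∈ J, Q) ^ 2 : ℤ)) : M)
      (((b * (∏ Q ∈ J, Q) ^ 3 : ℤ)) : M)
      (((∏ Q ∈ J, Q : ℤ) : Ω) * algebraMap L Ω θ) := by
    unfold Rt
    rw [map_intCast, map_intCast]
    simp only [Int.cast_mul, Int.cast_pow]
    linear_combination ((∏ Q ∈ J, Q : ℤ) : Ω) ^ 3 * hroot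
  have hn2 := hn Ω _ hRt hΩ
  have hcnd := cnd_top' (O := O) (O' := O') (R := R) H.p.exq H.p.lie H.p.loc1 H.p.loc2 hc hS hF
    hsp hT hdis hJ (h := h)
    (fun w hw => H.p.glr M R _ _ h6M hdisc f hf h2f β h hβ hh w (val_two hw) (hloc w)) hn2.1
  have hc2 := c2w_sel R H.p.glr2 H.sqd H.twg hD0 hD8 hnr hmin hdisc f hf h2f β h hβ hh hloc
  obtain ⟨c1, c2, c3⟩ := H.c2w L M Ω R a b θ hF.sq.ne_zero hnr hc hΩ htop
  -- the product of the primes in `T`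
  have hδ : ∀ (O₁ : Type) [CommRing O₁] [IsDedekindDomain O₁] (𝔓 : HeightOneSpectrum O₁),
      Ov (∏ P ∈ T, P) 𝔓 → ∃ P ∈ T, Ov P 𝔓 := fun O₁ _ _ 𝔓 h => ov_prod h
  have hδ' : ∀ (O₁ : Type) [CommRing O₁] [IsDedekindDomain O₁] (𝔓 : HeightOneSpectrum O₁),
      ¬ Ov (∏ P ∈ T, P) 𝔓 → ∀ P ∈ T, ¬ Ov P 𝔓 := by
    intro O₁ _ _ 𝔓 h P hP h'
    apply h
    have e : ∏ P ∈ T, P = P * ∏ x ∈ T.erase P, x := (Finset.mul_prod_erase T (fun x => x) hP).symm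
    unfold Ov at h' ⊢
    rw [e, Int.cast_mul]
    exact Ideal.mul_mem_right _ _ h'
  have hsq := H.p.tow n ℚ L M Ω h2K hM hc.rank hΩ
    (fun x => Cnd O' J T (algebraMap L Ω θ) x ∧ C2w M R a b (algebraMap L Ω θ) x)
    (fun x hx => ⟨cnd_sq hx, c1 x⟩)
    (fun x y hx hy h h' => ⟨cnd_mul H.p.cls (fun Q hQ => ⟨(hS Q (hJ hQ)).1.2,
        not_dvd_two (hS Q (hJ hQ)).2.1 (hS Q (hJ hQ)).1.1 (hS Q (hJ hQ)).1.2⟩)
      (fun Q hQ 𝔓 h1 h2 => odd_top' (O := O) (R := R) H.p.exq hsp hc hF.sq (hS Q (hJ hQ)).1.2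
        (hF.rb Q (hJ hQ)) (fam_ns hS hF (hJ hQ)) 𝔓 h1
        (fun P hP => not_ov_T hS hT' hdis (hJ hQ) hP h1) h2) hx hy h.1 h'.1, c2 x y h.2 h'.2⟩)
    (fun σ x h => ⟨cnd_sig H.p.sig rfl σ h.1, c3 σ x h.2⟩)
    (fun x hx hC hN => base_sq O O' (δ := ∏ P ∈ T, P) hsel
      (fun 𝔓 h => hsp.uu 𝔓 (hδ' O 𝔓 h))
      (fun Q hQ 𝔓' h _ => hsp.sd Q hQ 𝔓' h)
      (fun P hP => H.p.p3 L O a b θ hc hF.sq P (hT' P hP).2 (fam_nt hT hF hP))
      (fun 𝔓 h => hδ O 𝔓 h)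
      (fun Q hQ 𝔓 h h' => by
        obtain ⟨P, hP, hP'⟩ := hδ O 𝔓 h'
        exact not_ov_T hS hT' hdis (hJ hQ) hP h hP') hx hC.1
      (base_two R H.ud hc ha h4 hur hx hN hC.2) hN)
    _ hn2.1 ⟨hcnd, hc2⟩ hn2.2
  exact H.p.gt M _ _ h6M hdisc hirrD f hf h2f β h hβ hh _ _ hRt hΩ hsq

end abs

end Pool.Agent.H14U
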