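import Pool.Agent.W401.Cheb.Main
import Pool.Agent.N922.PQ.Core

/-!
# Prime numbers modulo which a cubic polynomial is irreducible, with quadratic conditions
-/

set_option autoImplicit false
set_option linter.all false

open Polynomial NumberField

namespace Pool.Agent.H14U

open Pool.Agent.N922.PQ (ff ff_monic ff_deg ff_map)

theorem roots_of {a b : ℤ} (hirr : Irreducible (ff ℚ a b)) (S : Finset ℤ) {N : Type} [Field N]
    [NumberField N] (hsp : ((ff ℚ a b * ((X ^ 2 + 1) * ∏ q ∈ S, (X ^ 2 - C (q : ℚ)))).map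
      (algebraMap ℚ N)).Splits) :
    ∃ x y z i : N, x ≠ y ∧ y ≠ z ∧ z ≠ x ∧
      (∀ t : N, t ^ 3 + (a : N) * t + (b : N) = (t - x) * (t - y) * (t - z)) ∧
      i ^ 2 = -1 ∧ ∀ q ∈ S, ∃ r : N, r ^ 2 = (q : N) := by
  classical
  have hX1 : (X ^ 2 + 1 : ℚ[X]).Monic := by monicity!
  have hX2 : ∀ q : ℤ, (X ^ 2 - C (q : ℚ) : ℚ[X]).Monic := fun q => by monicity!
  have hd1 : (X ^ 2 + 1 : ℚ[X]).degree = 2 := by compute_degree!
  have hd2 : ∀ q : ℤ, (X ^ 2 - C (q : ℚ) : ℚ[X]).degree = 2 := fun q => by compute_degree!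
  have hP0 : ff ℚ a b * ((X ^ 2 + 1) * ∏ q ∈ S, (X ^ 2 - C (q : ℚ))) ≠ 0 :=
    mul_ne_zero (ff_monic ℚ a b).ne_zero (mul_ne_zero hX1.ne_zero
      (Finset.prod_ne_zero_iff.2 fun q _ => (hX2 q).ne_zero))
  have hmap : (ff ℚ a b * ((X ^ 2 + 1) * ∏ q ∈ S, (X ^ 2 - C (q : ℚ)))).map (algebraMap ℚ N) ≠ 0 := by
    rw [Ne, Polynomial.map_eq_zero]; exact hP0
  have h1 : ((ff ℚ a b).map (algebraMap ℚ N)).Splits :=
    hsp.of_dvd hmap (Polynomial.map_dvd _ (dvd_mul_right _ _))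
  have h2 : ((X ^ 2 + 1 : ℚ[X]).map (algebraMap ℚ N)).Splits :=
    hsp.of_dvd hmap (Polynomial.map_dvd _ (dvd_mul_of_dvd_right (dvd_mul_right _ _) _))
  have h3 : ∀ q ∈ S, ((X ^ 2 - C (q : ℚ) : ℚ[X]).map (algebraMap ℚ N)).Splits := fun q hq =>
    hsp.of_dvd hmap (Polynomial.map_dvd _ (dvd_mul_of_dvd_right (dvd_mul_of_dvd_right
      (Finset.dvd_prod_of_mem (fun q : ℤ => (X ^ 2 - C (q : ℚ) : ℚ[X])) hq) _) _))
  obtain ⟨i, hi⟩ := h2.exists_eval_eq_zero (by rw [degree_map, hd1]; decide)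
  have hi' : i ^ 2 = -1 := by
    have h4 : i ^ 2 + 1 = 0 := by simpa using hi
    linear_combination h4
  have hr : ∀ q ∈ S, ∃ r : N, r ^ 2 = (q : N) := by
    intro q hq
    obtain ⟨r, hr⟩ := (h3 q hq).exists_eval_eq_zero (by rw [degree_map, hd2]; decide)
    refine ⟨r, ?_⟩
    have h4 : r ^ 2 - (q : N) = 0 := by simpa using hr
    linear_combination h4
  -- the roots of the cubic polynomial
  rw [ff_map] at h1
  have hcard : (ff N a b).roots.card = 3 := by
    rw [(splits_iff_card_roots.1 h1), ff_deg]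
  obtain ⟨x, y, z, hxyz⟩ := Multiset.card_eq_three.1 hcard
  have hprod : ff N a b = (X - C x) * (X - C y) * (X - C z) := by
    have h4 := (h1.eq_prod_roots_of_monic (ff_monic N a b))
    rw [hxyz] at h4
    simpa [mul_assoc] using h4
  have hsepr : (ff ℚ a b).Separable := hirr.separable
  have hnd : (ff N a b).roots.Nodup := by
    rw [← ff_map (algebraMap ℚ N)]
    exact nodup_roots (hsepr.map)
  rw [hxyz] at hnd
  simp at hnd
  refine ⟨x, y, z, i, ?_, ?_, ?_, ?_, hi', hr⟩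
  · exact hnd.1.1
  · exact hnd.2
  · exact fun h => hnd.1.2 h.symm
  · intro t
    have h5 := congrArg (eval t) hprod
    simpa [ff] using h5

/-- The field. -/
theorem exists_N {a b : ℤ} (hirr : Irreducible (ff ℚ a b)) (S : Finset ℤ) :
    ∃ (N : Type) (_ : Field N) (_ : NumberField N) (_ : IsGalois ℚ N) (x y z i : N),
      x ≠ y ∧ y ≠ z ∧ z ≠ x ∧
      (∀ t : N, t ^ 3 + (a : N) * t + (b : N) = (t - x) * (t - y) * (t - z)) ∧
      i ^ 2 = -1 ∧ ∀ q ∈ S, ∃ r : N, r ^ 2 = (q : N) := by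
  classical
  set P : ℚ[X] := ff ℚ a b * ((X ^ 2 + 1) * ∏ q ∈ S, (X ^ 2 - C (q : ℚ))) with hP
  have hspl : IsSplittingField ℚ P.SplittingField P := by
    convert IsSplittingField.splittingField P
    exact Subsingleton.elim _ _
  have hnor : Normal ℚ P.SplittingField := Normal.of_isSplittingField P
  have hsep : Algebra.IsSeparable ℚ P.SplittingField :=
    Algebra.IsAlgebraic.isSeparable_of_perfectField
  have hgal : IsGalois ℚ P.SplittingField := ⟨⟩
  have hnum : NumberField P.SplittingField :=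
    { to_charZero := inferInstance, to_finiteDimensional := inferInstance }
  obtain ⟨x, y, z, i, h⟩ := roots_of hirr S (N := P.SplittingField) hspl.splits'
  exact ⟨P.SplittingField, inferInstance, hnum, hgal, x, y, z, i, h⟩

section gal

variable {N : Type} [Field N] [NumberField N] [IsGalois ℚ N] {a b : ℤ}

theorem conj_root (hirr : Irreducible (ff ℚ a b)) {x y : N}
    (hx : x ^ 3 + (a : N) * x + (b : N) = 0) (hy : y ^ 3 + (a : N) * y + (b : N) = 0) :
    ∃ σ : Gal(N/ℚ), σ x = y := by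
  have hxf : aeval x (ff ℚ a b) = 0 := by
    simpa [ff] using hx
  have hyf : aeval y (ff ℚ a b) = 0 := by
    simpa [ff] using hy
  have h1 : ff ℚ a b = minpoly ℚ y :=
    minpoly.eq_of_irreducible_of_monic hirr hyf (ff_monic ℚ a b)
  have h3 : aeval x (minpoly ℚ y) = 0 := by
    rw [← h1]
    exact hxf
  exact minpoly.exists_algEquiv_of_root (Algebra.IsAlgebraic.isAlgebraic y) h3

/-- An automorphism which permutes the roots cyclically. -/
theorem exists_cycle (hirr : Irreducible (ff ℚ a b)) {x y z : N} (hxy : x ≠ y) (hyz : y ≠ z)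
    (hzx : z ≠ x) (hf : ∀ t : N, t ^ 3 + (a : N) * t + (b : N) = (t - x) * (t - y) * (t - z)) :
    ∃ σ : Gal(N/ℚ), (σ x = y ∧ σ y = z ∧ σ z = x) ∨ (σ x = z ∧ σ z = y ∧ σ y = x) := by
  have rx : x ^ 3 + (a : N) * x + (b : N) = 0 := by rw [hf]; ring
  have ry : y ^ 3 + (a : N) * y + (b : N) = 0 := by rw [hf]; ring
  have rz : z ^ 3 + (a : N) * z + (b : N) = 0 := by rw [hf]; ring
  have hperm : ∀ (σ : Gal(N/ℚ)) (t : N), t ^ 3 + (a : N) * t + (b : N) = 0 →
      σ t = x ∨ σ t = y ∨ σ t = z := by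
    intro σ t ht
    have h1 := congrArg σ ht
    rw [map_add, map_add, map_mul, map_pow, map_intCast, map_intCast, map_zero, hf] at h1
    rcases mul_eq_zero.1 h1 with h1 | h1
    · rcases mul_eq_zero.1 h1 with h1 | h1
      · exact Or.inl (sub_eq_zero.1 h1)
      · exact Or.inr (Or.inl (sub_eq_zero.1 h1))
    · exact Or.inr (Or.inr (sub_eq_zero.1 h1))
  have hinj : ∀ (σ : Gal(N/ℚ)) {s t u : N}, s ≠ t → σ s = u → σ t ≠ u := by
    intro σ s t u hst hs ht
    exact hst (σ.injective (hs.trans ht.symm))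
  obtain ⟨σ, hσ⟩ := conj_root hirr rx ry
  rcases hperm σ y ry with h1 | h1 | h1
  · -- `σ` exchanges `x` and `y`
    have h2 : σ z = z := by
      rcases hperm σ z rz with h2 | h2 | h2
      · exact absurd h2 (hinj σ hyz h1)
      · exact absurd h2 (hinj σ hzx.symm hσ)
      · exact h2
    obtain ⟨τ, hτ⟩ := conj_root hirr rx rz
    rcases hperm τ z rz with h3 | h3 | h3
    · have h4 : τ y = y := by
        rcases hperm τ y ry with h4 | h4 | h4
        · exact absurd h4 (hinj τ hyz.symm h3)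
        · exact h4
        · exact absurd h4 (hinj τ hxy hτ)
      refine ⟨σ * τ, Or.inr ⟨?_, ?_, ?_⟩⟩
      · rw [AlgEquiv.mul_apply, hτ, h2]
      · rw [AlgEquiv.mul_apply, h3, hσ]
      · rw [AlgEquiv.mul_apply, h4, h1]
    · refine ⟨τ, Or.inr ⟨hτ, h3, ?_⟩⟩
      rcases hperm τ y ry with h4 | h4 | h4
      · exact h4
      · exact absurd h4 (hinj τ hyz.symm h3)
      · exact absurd h4 (hinj τ hxy hτ)
    · exact absurd h3 (hinj τ hzx.symm hτ)
  · exact absurd h1 (hinj σ hxy hσ)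
  · refine ⟨σ, Or.inl ⟨hσ, h1, ?_⟩⟩
    rcases hperm σ z rz with h2 | h2 | h2
    · exact h2
    · exact absurd h2 (hinj σ hzx.symm hσ)
    · exact absurd h2 (hinj σ hyz h1)

/-- The automorphism: no fixed root, and it fixes all the square roots of rational integers. -/
theorem exists_g (hirr : Irreducible (ff ℚ a b)) {x y z : N} (hxy : x ≠ y) (hyz : y ≠ z)
    (hzx : z ≠ x) (hf : ∀ t : N, t ^ 3 + (a : N) * t + (b : N) = (t - x) * (t - y) * (t - z)) :
    ∃ g : Gal(N/ℚ), ((g x = y ∧ g y = z ∧ g z = x) ∨ (g x = z ∧ g z = y ∧ g y = x)) ∧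
      ∀ (r : N) (q : ℤ), r ^ 2 = (q : N) → g r = r := by
  obtain ⟨σ, hσ⟩ := exists_cycle hirr hxy hyz hzx hf
  refine ⟨σ * σ * σ * σ, ?_, ?_⟩
  · simp only [AlgEquiv.mul_apply]
    rcases hσ with ⟨h1, h2, h3⟩ | ⟨h1, h2, h3⟩
    · left
      simp only [h1, h2, h3, and_self]
    · right
      simp only [h1, h2, h3, and_self]
  · intro r q hr
    have h1 : (σ r - r) * (σ r + r) = 0 := by
      have h2 : (σ r) ^ 2 = r ^ 2 := by
        rw [← map_pow, hr, map_intCast]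
      linear_combination h2
    simp only [AlgEquiv.mul_apply]
    rcases mul_eq_zero.1 h1 with h | h
    · have h2 : σ r = r := sub_eq_zero.1 h
      simp only [h2]
    · have h2 : σ r = -r := eq_neg_of_add_eq_zero_left h
      simp only [h2, map_neg, neg_neg]

open Pool.Agent.W401.Cheb (xp HasFrob infinite_frob)

theorem smul_coe' (σ : Gal(N/ℚ)) (x : 𝓞 N) : ((σ • x : 𝓞 N) : N) = σ (x : N) :=
  algebraMap.smul' σ x N

/-- The prime numbers whose Frobenius element is the automorphism above. -/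
theorem frob_cond {x y z i : N} (hxy : x ≠ y) (hyz : y ≠ z) (hzx : z ≠ x)
    (hf : ∀ t : N, t ^ 3 + (a : N) * t + (b : N) = (t - x) * (t - y) * (t - z))
    (hi : i ^ 2 = -1) {g : Gal(N/ℚ)}
    (hg : (g x = y ∧ g y = z ∧ g z = x) ∨ (g x = z ∧ g z = y ∧ g y = x))
    (hgr : ∀ (r : N) (q : ℤ), r ^ 2 = (q : N) → g r = r) {l : ℕ} (hl : l.Prime) (hl2 : l ≠ 2)
    (hd : ¬ (l : ℤ) ∣ 4 * a ^ 3 + 27 * b ^ 2) (hx : xp N g l ≠ 0) :
    (∀ t : ℤ, ¬ (l : ℤ) ∣ t ^ 3 + a * t + b) ∧ l % 4 = 1 ∧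
      ∀ q : ℤ, (∃ r : N, r ^ 2 = (q : N)) → ∃ m : ℤ, (l : ℤ) ∣ m ^ 2 - q := by
  classical
  have hfact : Fact l.Prime := ⟨hl⟩
  unfold xp at hx
  rw [dif_pos hl] at hx
  obtain ⟨⟨φ, hφ⟩⟩ : Nonempty {φ : 𝓞 N →+* AlgebraicClosure (ZMod l) // HasFrob l φ g} := by
    by_contra hcon
    rw [not_nonempty_iff] at hcon
    exact hx (@Nat.card_of_isEmpty _ hcon)
  have hchar : ∀ n : ℤ, ((n : ℤ) : AlgebraicClosure (ZMod l)) = 0 → (l : ℤ) ∣ n := by
    intro n hn
    have h1 : CharP (AlgebraicClosure (ZMod l)) l := inferInstance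
    exact (CharP.intCast_eq_zero_iff _ l n).1 hn
  have h20 : (2 : AlgebraicClosure (ZMod l)) ≠ 0 := by
    intro h
    have h1 := hchar 2 (by exact_mod_cast h)
    have h2 : l ∣ 2 := by exact_mod_cast h1
    exact hl2 ((Nat.prime_dvd_prime_iff_eq hl Nat.prime_two).1 h2)
  have hsq : ∀ (r : N) (q : ℤ), r ^ 2 = (q : N) → ∃ ρ : 𝓞 N, ρ ^ 2 = (q : 𝓞 N) ∧ g • ρ = ρ := by
    intro r q hr
    have hri : IsIntegral ℤ r := by
      have h1 : IsIntegral ℤ (r ^ 2) := by
        rw [hr]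
        have := isIntegral_algebraMap (R := ℤ) (A := N) (x := q)
        simpa using this
      exact h1.of_pow (by norm_num)
    let ρ : 𝓞 N := ⟨r, hri⟩
    refine ⟨ρ, RingOfIntegers.ext ?_, RingOfIntegers.ext (by rw [smul_coe']; exact hgr r q hr)⟩
    push_cast
    exact hr
  refine ⟨?_, ?_, ?_⟩
  · -- no root
    have hint : ∀ t : N, (t - x) * (t - y) * (t - z) = 0 → IsIntegral ℤ t := by
      intro t ht
      refine ⟨X ^ 3 + C a * X + C b, by monicity!, ?_⟩
      rw [← hf] at ht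
      rw [eval₂_add, eval₂_add, eval₂_mul, eval₂_pow, eval₂_X, eval₂_C, eval₂_C]
      simpa using ht
    have hxi : IsIntegral ℤ x := hint x (by ring)
    have hyi : IsIntegral ℤ y := hint y (by ring)
    have hzi : IsIntegral ℤ z := hint z (by ring)
    let x' : 𝓞 N := ⟨x, hxi⟩
    let y' : 𝓞 N := ⟨y, hyi⟩
    let z' : 𝓞 N := ⟨z, hzi⟩
    have hf' : ∀ t : ℤ, ((t ^ 3 + a * t + b : ℤ) : 𝓞 N) =
        ((t : 𝓞 N) - x') * ((t : 𝓞 N) - y') * ((t : 𝓞 N) - z') := by
      intro t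
      apply RingOfIntegers.ext
      push_cast
      exact hf t
    have h0 := hf' 0
    have h1 := hf' 1
    have h2 := hf' (-1)
    push_cast at h0 h1 h2
    have hdisc : ((x' - y') * (y' - z') * (z' - x')) ^ 2 = -((4 * a ^ 3 + 27 * b ^ 2 : ℤ) : 𝓞 N) := by
      have e1 : 2 * (x' + y' + z') = 0 := by linear_combination h1 + h2 - 2 * h0
      have e1' : x' + y' + z' = 0 := by
        rcases mul_eq_zero.1 e1 with h | h
        · exact absurd h two_ne_zero
        · exact h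
      have eb : (b : 𝓞 N) = - (x' * y' * z') := by linear_combination h0
      have ea : (a : 𝓞 N) = x' * y' + y' * z' + z' * x' := by
        linear_combination h1 - h0 - e1'
      have ez : z' = - x' - y' := by linear_combination e1'
      push_cast
      rw [ea, eb, ez]
      ring
    have hne : ∀ u v : 𝓞 N, (u = x' ∨ u = y' ∨ u = z') → (v = x' ∨ v = y' ∨ v = z') →
        u ≠ v → φ u ≠ φ v := by
      intro u v hu hv huv he
      have h3 : φ (u - v) = 0 := by rw [map_sub, he, sub_self]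
      have h4 : φ (((x' - y') * (y' - z') * (z' - x')) ^ 2) = 0 := by
        have h5 : (u - v) ∣ ((x' - y') * (y' - z') * (z' - x')) ^ 2 := by
          rcases hu with rfl | rfl | rfl <;> rcases hv with rfl | rfl | rfl
          · exact absurd rfl huv
          · exact ⟨(x' - y') * ((y' - z') * (z' - x')) ^ 2, by ring⟩
          · exact ⟨(x' - z') * ((x' - y') * (y' - z')) ^ 2, by ring⟩
          · exact ⟨(y' - x') * ((y' - z') * (z' - x')) ^ 2, by ring⟩
          · exact absurd rfl huv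
          · exact ⟨(y' - z') * ((x' - y') * (z' - x')) ^ 2, by ring⟩
          · exact ⟨(z' - x') * ((x' - y') * (y' - z')) ^ 2, by ring⟩
          · exact ⟨(z' - y') * ((x' - y') * (z' - x')) ^ 2, by ring⟩
          · exact absurd rfl huv
        obtain ⟨w, hw⟩ := h5
        rw [hw, map_mul, h3, zero_mul]
      rw [hdisc, map_neg, map_intCast, neg_eq_zero] at h4
      exact hd (hchar _ h4)
    have hgx : g • x' = y' ∧ g • y' = z' ∧ g • z' = x' ∨ g • x' = z' ∧ g • z' = y' ∧ g • y' = x' := by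
      rcases hg with ⟨h3, h4, h5⟩ | ⟨h3, h4, h5⟩
      · left
        exact ⟨RingOfIntegers.ext (by rw [smul_coe']; exact h3),
          RingOfIntegers.ext (by rw [smul_coe']; exact h4),
          RingOfIntegers.ext (by rw [smul_coe']; exact h5)⟩
      · right
        exact ⟨RingOfIntegers.ext (by rw [smul_coe']; exact h3),
          RingOfIntegers.ext (by rw [smul_coe']; exact h4),
          RingOfIntegers.ext (by rw [smul_coe']; exact h5)⟩
    have nxy : x' ≠ y' := fun h => hxy (congrArg (algebraMap (𝓞 N) N) h)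
    have nyz : y' ≠ z' := fun h => hyz (congrArg (algebraMap (𝓞 N) N) h)
    have nzx : z' ≠ x' := fun h => hzx (congrArg (algebraMap (𝓞 N) N) h)
    intro t ht
    have hfer : ((t : ℤ) : AlgebraicClosure (ZMod l)) ^ l = (t : AlgebraicClosure (ZMod l)) := by
      have e : ((t : ℤ) : AlgebraicClosure (ZMod l)) =
          algebraMap (ZMod l) (AlgebraicClosure (ZMod l)) (t : ZMod l) := by
        rw [map_intCast]
      rw [e, ← map_pow, ZMod.pow_card]
    have h3 : φ ((t ^ 3 + a * t + b : ℤ) : 𝓞 N) = 0 := by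
      rw [map_intCast]
      obtain ⟨k, hk⟩ := ht
      rw [hk, Int.cast_mul, Int.cast_natCast, CharP.cast_eq_zero, zero_mul]
    rw [hf', map_mul, map_mul, map_sub, map_sub, map_sub, map_intCast] at h3
    have key : ∀ u : 𝓞 N, (u = x' ∨ u = y' ∨ u = z') → (t : AlgebraicClosure (ZMod l)) = φ u →
        False := by
      intro u hu htu
      have h4 : φ (g • u) = φ u := by
        rw [hφ, ← htu, hfer]
      have h5 : (g • u = x' ∨ g • u = y' ∨ g • u = z') ∧ g • u ≠ u := by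
        rcases hgx with ⟨g1, g2, g3⟩ | ⟨g1, g2, g3⟩
        · rcases hu with rfl | rfl | rfl
          · rw [g1]; exact ⟨Or.inr (Or.inl rfl), nxy.symm⟩
          · rw [g2]; exact ⟨Or.inr (Or.inr rfl), nyz.symm⟩
          · rw [g3]; exact ⟨Or.inl rfl, nzx.symm⟩
        · rcases hu with rfl | rfl | rfl
          · rw [g1]; exact ⟨Or.inr (Or.inr rfl), nzx⟩
          · rw [g3]; exact ⟨Or.inl rfl, nxy⟩
          · rw [g2]; exact ⟨Or.inr (Or.inl rfl), nyz⟩
      exact hne _ _ h5.1 hu h5.2 h4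
    rcases mul_eq_zero.1 h3 with h3 | h3
    · rcases mul_eq_zero.1 h3 with h3 | h3
      · exact key x' (Or.inl rfl) (sub_eq_zero.1 h3)
      · exact key y' (Or.inr (Or.inl rfl)) (sub_eq_zero.1 h3)
    · exact key z' (Or.inr (Or.inr rfl)) (sub_eq_zero.1 h3)
  · -- `1` modulo `4`
    obtain ⟨ρ, hρ, hgρ⟩ := hsq i (-1) (by rw [hi]; simp)
    have h1 : φ ρ ^ l = φ ρ := by
      rw [← hφ, hgρ]
    have h2 : φ ρ ^ 2 = -1 := by
      rw [← map_pow, hρ]
      simp
    have hodd : l % 2 = 1 := hl.eq_two_or_odd.resolve_left hl2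
    by_contra hne
    have h3 : l % 4 = 3 := by omega
    obtain ⟨k, hk⟩ : ∃ k, l = 2 * (2 * k + 1) + 1 := ⟨l / 4, by omega⟩
    have h4 : φ ρ ^ l = - φ ρ := by
      have e : φ ρ ^ l = φ ρ ^ (2 * (2 * k + 1) + 1) := congrArg (fun n => φ ρ ^ n) hk
      rw [e, pow_succ, pow_mul, h2, pow_succ, pow_mul]
      simp
    rw [h4] at h1
    have h5 : 2 * φ ρ = 0 := by linear_combination -h1
    have h6 : φ ρ = 0 := (mul_eq_zero.1 h5).resolve_left h20
    rw [h6] at h2
    norm_num at h2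
  · -- squares
    rintro q ⟨r, hr⟩
    obtain ⟨ρ, hρ, hgρ⟩ := hsq r q hr
    have h1 : φ ρ ^ l = φ ρ := by
      rw [← hφ, hgρ]
    obtain ⟨m, hm⟩ := _root_.W54.ChTor.frob_fixed l (φ ρ) h1
    obtain ⟨m, rfl⟩ := ZMod.intCast_surjective m
    refine ⟨m, hchar _ ?_⟩
    have h2 : φ ρ ^ 2 = ((q : ℤ) : AlgebraicClosure (ZMod l)) := by
      rw [← map_pow, hρ, map_intCast]
    rw [map_intCast] at hm
    rw [← hm] at h2
    push_cast
    rw [h2, sub_self]

/-- Infinitely many primes. -/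
theorem infinite_l {a b : ℤ} (hirr : Irreducible (ff ℚ a b)) (hd0 : 4 * a ^ 3 + 27 * b ^ 2 ≠ 0)
    (S : Finset ℕ) (hS : ∀ q ∈ S, q.Prime ∧ q ≠ 2) :
    {l : ℕ | l.Prime ∧ (∀ t : ℤ, ¬ (l : ℤ) ∣ t ^ 3 + a * t + b) ∧ l % 4 = 1 ∧
      ∀ q ∈ S, ∃ m : ℤ, (q : ℤ) ∣ m ^ 2 - (l : ℤ)}.Infinite := by
  classical
  obtain ⟨N, _, _, _, x, y, z, i, hxy, hyz, hzx, hf, hi, hr⟩ := exists_N hirr
    (S.image (fun q : ℕ => (q : ℤ)))
  obtain ⟨g, hg, hgr⟩ := exists_g hirr hxy hyz hzx hf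
  have h1 := infinite_frob N g
  have hfin : {l : ℕ | l = 2 ∨ (l : ℤ) ∣ 4 * a ^ 3 + 27 * b ^ 2}.Finite := by
    refine Set.Finite.subset (Set.finite_Iic (max 2 (4 * a ^ 3 + 27 * b ^ 2).natAbs)) ?_
    rintro l (rfl | h)
    · exact le_max_left 2 (4 * a ^ 3 + 27 * b ^ 2).natAbs
    · refine (Nat.le_of_dvd (Int.natAbs_pos.2 hd0) ?_).trans (le_max_right _ _)
      exact Int.natCast_dvd.1 h
  refine (h1.diff hfin).mono ?_
  rintro l ⟨⟨hl, hx⟩, hn⟩
  rw [Set.mem_setOf_eq, not_or] at hn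
  obtain ⟨c1, c2, c3⟩ := frob_cond hxy hyz hzx hf hi hg hgr hl hn.1 hn.2 hx
  refine ⟨hl, c1, c2, fun q hq => ?_⟩
  obtain ⟨m, hm⟩ := c3 q (hr q (Finset.mem_image_of_mem _ hq))
  have hq' := hS q hq
  haveI : Fact l.Prime := ⟨hl⟩
  haveI : Fact q.Prime := ⟨hq'.1⟩
  have h2 : IsSquare ((q : ℕ) : ZMod l) := by
    refine ⟨(m : ZMod l), ?_⟩
    have h3 : ((m ^ 2 - (q : ℤ) : ℤ) : ZMod l) = 0 := (ZMod.intCast_zmod_eq_zero_iff_dvd _ l).2 hm
    push_cast at h3
    linear_combination -h3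
  rw [ZMod.exists_sq_eq_prime_iff_of_mod_four_eq_one c2 hq'.2] at h2
  obtain ⟨n, hn⟩ := h2
  obtain ⟨n, rfl⟩ := ZMod.intCast_surjective n
  refine ⟨n, (ZMod.intCast_zmod_eq_zero_iff_dvd _ q).1 ?_⟩
  push_cast
  rw [hn]
  ring

end gal

end Pool.Agent.H14U
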