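import Pool.Agent.H14U.SplOf
import Pool.Agent.N922.PQ.Unr

/-!
# Counting curves which are good over all admissible fields
-/

set_option autoImplicit false
set_option linter.all false

open Polynomial IsDedekindDomain WeierstrassCurve WeierstrassCurve.Affine NumberField
open Pool.Agent.TH115.GD
open scoped Classical IntermediateField

namespace Pool.Agent.H14U

open Pool.Agent.N922.PQ
open Pool.Agent.N874.PP (Tup chA chB gq tau Two Ev Sq1 U0 sW IsBeta Rt)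
open Pool.Agent.N874.PM (PLoc Lies SelR ShaR S_LOC1M S_LOC2M)

/-- Admissible fields for the curve `p`. -/
structure Adm (K : Type) [Field K] [NumberField K] (p : ℤ × ℤ) : Prop where
  galois : IsGalois ℚ K
  deg : ∃ n : ℕ, Module.finrank ℚ K = 2 ^ n
  two : ∀ 𝔭 : Ideal (𝓞 K), 𝔭.IsPrime → (2 : 𝓞 K) ∉ 𝔭 ^ 2
  ram : ∀ l : ℕ, l.Prime → ∀ 𝔭 : Ideal (𝓞 K), 𝔭.IsPrime → (l : 𝓞 K) ∈ 𝔭 ^ 2 →
    ∀ z : ℤ, ¬ (l : ℤ) ∣ z ^ 3 + p.1 * z + p.2
  split : ∀ q : ℕ, q.Prime → (q : ℤ) ^ 2 ∣ p.1 → (q : ℤ) ^ 3 ∣ p.2 →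
    ∀ 𝔭 : Ideal (𝓞 K), 𝔭.IsPrime → (q : 𝓞 K) ∈ 𝔭 → ∀ x : 𝓞 K, ∃ n : ℤ, x - (n : 𝓞 K) ∈ 𝔭

/-- The prime numbers dividing `δ`. -/
theorem exists_T₀ {δ : ℤ} (hδ : δ ≠ 0) : ∃ T : Finset ℤ, (∀ P ∈ T, IsPr P) ∧
    ∀ P : ℤ, IsPr P → P ∣ δ → P ∈ T := by
  have hf : {P : ℤ | IsPr P ∧ P ∣ δ}.Finite := by
    refine (Set.finite_Icc (-|δ|) |δ|).subset ?_
    rintro P ⟨-, h⟩
    have h3 : |P| ≤ |δ| := Int.le_of_dvd (abs_pos.2 hδ) ((abs_dvd_abs P δ).2 h)
    exact abs_le.1 h3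
  refine ⟨hf.toFinset, fun P hP => ?_, fun P h1 h2 => ?_⟩
  · exact (hf.mem_toFinset.1 hP).1
  · exact hf.mem_toFinset.2 ⟨h1, h2⟩

theorem isPr_nat {P : ℤ} (hP : IsPr P) : P.toNat.Prime ∧ ((P.toNat : ℕ) : ℤ) = P := by
  have h1 : ((P.toNat : ℕ) : ℤ) = P := Int.toNat_of_nonneg hP.1.le
  refine ⟨?_, h1⟩
  rw [Nat.prime_iff_prime_int, h1]
  exact hP.2

theorem isPr_of_nat {q : ℕ} (hq : q.Prime) : IsPr (q : ℤ) :=
  ⟨by exact_mod_cast hq.pos, Nat.prime_iff_prime_int.1 hq⟩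

/-- A prime over which the valuation is not normalized is ramified. -/
theorem mem_sq {K : Type} [Field K] [NumberField K] {w : HeightOneSpectrum (𝓞 K)} {P : ℤ}
    (hP : IsPr P) (h1 : Ov P w) (h2 : w.valuation K (P : K) ≠ WithZero.exp (-1 : ℤ)) :
    ((P.toNat : ℕ) : 𝓞 K) ∈ w.asIdeal ^ 2 := by
  have e0 : ((P.toNat : ℕ) : 𝓞 K) = (P : 𝓞 K) := by
    conv_rhs => rw [← (isPr_nat hP).2]
    rw [Int.cast_natCast]
  have e1 : w.intValuation (P : 𝓞 K) = w.valuation K (P : K) := by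
    rw [← HeightOneSpectrum.valuation_of_algebraMap (K := K)]
    exact congrArg _ (map_intCast (algebraMap (𝓞 K) K) P)
  rw [e0, ← HeightOneSpectrum.intValuation_le_pow_iff_mem, e1]
  have h3 : w.valuation K (P : K) ≤ WithZero.exp (-1 : ℤ) :=
    val_le_exp w (by exact_mod_cast hP.2.ne_zero) ((ov_val P w).1 h1)
  have h0 : w.valuation K (P : K) ≠ 0 := by
    rw [Valuation.ne_zero_iff]
    exact_mod_cast hP.2.ne_zero
  rw [← WithZero.exp_log h0] at h2 h3 ⊢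
  rw [WithZero.exp_le_exp] at h3 ⊢
  have h4 : WithZero.log (w.valuation K (P : K)) ≠ -1 := fun h => h2 (by rw [h])
  push_cast
  omega

theorem no_root_down {a b D l : ℤ} (h : ∀ z : ℤ, ¬ l ∣ z ^ 3 + a * D ^ 2 * z + b * D ^ 3)
    (z : ℤ) : ¬ l ∣ z ^ 3 + a * z + b := by
  intro hz
  apply h (z * D)
  have e : (z * D) ^ 3 + a * D ^ 2 * (z * D) + b * D ^ 3 = (z ^ 3 + a * z + b) * D ^ 3 := by ring
  rw [e]
  exact dvd_mul_of_dvd_left hz _

theorem no_root_up {a b D l : ℤ} (hD : IsCoprime D l) (h : ∀ z : ℤ, ¬ l ∣ z ^ 3 + a * z + b)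
    (z : ℤ) : ¬ l ∣ z ^ 3 + a * D ^ 2 * z + b * D ^ 3 := by
  intro hz
  obtain ⟨u, v, huv⟩ := hD
  apply h (z * u)
  have e : (z * u) ^ 3 + a * (z * u) + b = (z ^ 3 + a * D ^ 2 * z + b * D ^ 3) * u ^ 3 +
      (a * (z * u) * (1 - (u * D) ^ 2) + b * (1 - (u * D) ^ 3)) := by ring
  rw [e]
  refine dvd_add (dvd_mul_of_dvd_left hz _) (dvd_add (dvd_mul_of_dvd_right ?_ _)
    (dvd_mul_of_dvd_right ?_ _))
  · exact ⟨v * (1 + u * D), by linear_combination (-(1 + u * D)) * huv⟩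
  · exact ⟨v * (1 + u * D + (u * D) ^ 2), by
      linear_combination (-(1 + u * D + (u * D) ^ 2)) * huv⟩

/-- The theorem on the Selmer group over all admissible fields. -/
theorem selU (H : Parts2) (hGEN : S_GEN) {κ : ℕ} (hLB : LBk κ) {a b : ℤ} {X' : ℕ}
    {S T : Finset ℤ} {s A B : ℤ → ℤ} (hS : GoodS S s)
    (hF : Fam X' S s T A B a b) (h4 : (4 : ℤ) ∣ a - b) (hnb : ¬ LBad κ X' S s a b)
    (hT : GoodT T A B) :
    ∃ J ⊆ S, ∀ (M : Type) [Field M] [NumberField M],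
      Adm M (a * (∏ Q ∈ J, Q) ^ 2, b * (∏ Q ∈ J, Q) ^ 3) →
      SelR (𝓞 M) (sW (((a * (∏ Q ∈ J, Q) ^ 2 : ℤ)) : M) (((b * (∏ Q ∈ J, Q) ^ 3 : ℤ)) : M)) := by
  have hnt2 : ∀ z : ℤ, ¬ (2 : ℤ) ∣ z ^ 3 + a * z + b := fam_nt hT hF hT.1
  obtain ⟨ha, hb⟩ := odd_of hnt2
  have hone : ∀ (F : Type) [Field F], (X ^ 3 + C ((((a * 1 ^ 2 : ℤ)) : F)) * X +
      C ((((b * 1 ^ 3 : ℤ)) : F)) : F[X]) = ff F a b := by
    intro F _
    rw [one_pow, one_pow, mul_one, mul_one]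
    rfl
  have hirr : Irreducible (ff ℚ a b) := by
    rw [← hone]
    exact irr_tw (algebraMap ℚ ℚ_[2]) hnt2 one_ne_zero
  obtain ⟨L, iF, iN, θ, hc, hu⟩ := exists_cub hirr
  obtain ⟨J, hJ, hsel⟩ := core2 (L := L) (𝓞 L) H.p.cls H.p.exq H.p.ns H.p.lin H.p.recp H.p.plm
    H.p.sd H.p.ttv hLB hc hS hT hF hnb
  refine ⟨J, hJ, ?_⟩
  intro M _ _ hadm
  haveI := hadm.galois
  obtain ⟨n, hM⟩ := hadm.deg
  have hur := val_two_of hadm.two
  obtain ⟨w₀, hw₀⟩ := exists_over (𝓞 M)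
  have hnr := H.nr M (𝓞 M) n hM w₀ hw₀ a b ha hb
  have hnrM : ∀ t : M, t ^ 3 + (a : M) * t + (b : M) ≠ 0 := by
    intro t ht
    apply hnr (algebraMap M _ t)
    have h1 := congrArg (algebraMap M (w₀.adicCompletion M)) ht
    rw [map_zero, map_add, map_add, map_mul, map_pow, map_intCast, map_intCast] at h1
    exact h1
  have hirrM : Irreducible (ff M a b) := irr_tw' hnrM
  obtain ⟨Ω, iF', iA', t, ht, hr, htop, hfin⟩ := exists_field hirrM (ff_monic M a b) (ff_deg M a b)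
  haveI : CharZero Ω := charZero_of_injective_algebraMap (algebraMap M Ω).injective
  haveI : FiniteDimensional ℚ Ω := FiniteDimensional.trans ℚ M Ω
  haveI : NumberField Ω := ⟨⟩
  have ht' : t ^ 3 + (a : Ω) * t + (b : Ω) = 0 := by
    simp only [ff, map_add, map_mul, map_pow, aeval_X, aeval_C, map_intCast] at ht
    exact ht
  obtain ⟨φ, hφ⟩ := hu Ω t ht'
  letI : Algebra L Ω := φ.toAlgebra
  have hroot : algebraMap L Ω θ = t := hφ
  have htop' : M⟮algebraMap L Ω θ⟯ = ⊤ := by rw [hroot]; exact htop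
  -- the ramified primes
  obtain ⟨γ, g, δ, hG, hdeg⟩ := hGEN M
  obtain ⟨T₀, hT₀, hδ₀⟩ := exists_T₀ hG.ne
  set T₁ : Finset ℤ := T₀.filter fun P => ∃ w : HeightOneSpectrum (𝓞 M), Ov P w ∧
    w.valuation M (P : M) ≠ WithZero.exp (-1 : ℤ) with hT₁
  have hT₁nr : ∀ P ∈ T₁, IsPr P ∧ ∀ z : ℤ, ¬ P ∣ z ^ 3 + a * z + b := by
    intro P hP
    rw [hT₁, Finset.mem_filter] at hP
    obtain ⟨hP0, w, h1, h2⟩ := hP
    have hPr := hT₀ P hP0
    refine ⟨hPr, ?_⟩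
    have h3 := hadm.ram P.toNat (isPr_nat hPr).1 w.asIdeal w.isPrime (mem_sq hPr h1 h2)
    rw [(isPr_nat hPr).2] at h3
    exact no_root_down h3
  let A' : ℤ → ℤ := fun P => if P ∈ T then A P else a
  let B' : ℤ → ℤ := fun P => if P ∈ T then B P else b
  have hT' : GoodT (T ∪ T₁) A' B' := by
    refine ⟨Finset.mem_union_left _ hT.1, Finset.mem_union_left _ hT.2.1, fun P hP => ?_⟩
    by_cases hPT : P ∈ T
    · simp only [A', B', if_pos hPT]
      exact hT.2.2 P hPT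
    · simp only [A', B', if_neg hPT]
      exact hT₁nr P ((Finset.mem_union.1 hP).resolve_left hPT)
  have hF' : Fam X' S s (T ∪ T₁) A' B' a b := by
    refine ⟨hF.pa, hF.da, hF.db, hF.ra, hF.rb, fun P hP => ?_, fun P hP => ?_, hF.sq⟩
    · by_cases hPT : P ∈ T
      · simp only [A', if_pos hPT]
        exact hF.ta P hPT
      · simp only [A', if_neg hPT, sub_self]
        exact dvd_zero _
    · by_cases hPT : P ∈ T
      · simp only [B', if_pos hPT]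
        exact hF.tb P hPT
      · simp only [B', if_neg hPT, sub_self]
        exact dvd_zero _
  have hdis : Disjoint S (T ∪ T₁) := by
    rw [Finset.disjoint_left]
    intro Q hQ hQT
    apply fam_nt hT' hF' hQT 0
    have e : (0 : ℤ) ^ 3 + a * 0 + b = b := by ring
    rw [e]
    exact hF.rb Q hQ
  have hsp : Spl L M Ω (𝓞 L) (𝓞 Ω) (𝓞 M) J (T ∪ T₁) := by
    refine spl_of hM hc.rank hr (fun Q hQ => (hS Q (hJ hQ)).1) (fun P hP => (hT'.2.2 P hP).1)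
      (hdis.mono_left hJ) ?_ ?_
    · intro w hw P hP hPw
      by_contra hne
      apply hw P ?_ hPw
      rw [Finset.mem_union]
      right
      rw [hT₁, Finset.mem_filter]
      refine ⟨?_, w, hPw, hne⟩
      by_contra hPT₀
      have hδw : ¬ Ov δ w := by
        intro h
        have hnd : ¬ P ∣ δ := fun h => hPT₀ (hδ₀ P hP h)
        exact one_mem_of ((hP.2.irreducible.coprime_iff_not_dvd).2 hnd) hPw h
      obtain ⟨v, hv⟩ := (H.p.ur ℚ M ℤ (𝓞 M) γ g δ hG).1 w hδw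
      apply hne
      have e : w.valuation M (P : M) = v.valuation ℚ (P : ℚ) := by
        rw [← hv, map_intCast (algebraMap ℚ M)]
      refine le_antisymm (val_le_exp w (by exact_mod_cast hP.2.ne_zero) ((ov_val P w).1 hPw)) ?_
      rw [e]
      exact val_sqfree hP.2.irreducible.squarefree v
    · intro Q hQ w hQw z
      have hQ' := (hS Q (hJ hQ)).1
      have hQD : Q ∣ ∏ Q ∈ J, Q := Finset.dvd_prod_of_mem (fun x => x) hQ
      refine hadm.split Q.toNat (isPr_nat hQ').1 ?_ ?_ w.asIdeal w.isPrime ?_ z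
      · rw [(isPr_nat hQ').2]
        exact dvd_mul_of_dvd_right (pow_dvd_pow_of_dvd hQD 2) _
      · rw [(isPr_nat hQ').2]
        exact dvd_mul_of_dvd_right (pow_dvd_pow_of_dvd hQD 3) _
      · have e0 : ((Q.toNat : ℕ) : 𝓞 M) = (Q : 𝓞 M) := by
          conv_rhs => rw [← (isPr_nat hQ').2]
          rw [Int.cast_natCast]
        rw [e0]
        exact hQw
  exact selR_abs' (O := 𝓞 L) (O' := 𝓞 Ω) (R := 𝓞 M) H hc hS hF' h4 hT' hJ hsel hsp hdis hM hr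
    htop' ha hb hur

end Pool.Agent.H14U
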