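import Pool.Agent.H14U.Quad
import Pool.Agent.N922.PQ.Final2

/-!
# A positive proportion, uniformly over all admissible fields: the parts together
-/

set_option autoImplicit false
set_option linter.all false

open IsDedekindDomain NumberField
open scoped Classical

namespace Pool.Agent.H14U

open Pool.Agent.N922.PQ

theorem final (M : Type) [Field M] [NumberField M] [IsGalois ℚ M] {n : ℕ}
    (hM : Module.finrank ℚ M = 2 ^ n)
    (h2 : ∀ 𝔭 : Ideal (𝓞 M), 𝔭.IsPrime → (2 : 𝓞 M) ∉ 𝔭 ^ 2) :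
    ∃ c : ℝ, 0 < c ∧ ∃ H₀ : ℕ, ∀ H ≥ H₀, {p : ℤ × ℤ | Crv H p.1 p.2}.Finite ∧
    c * ({p : ℤ × ℤ | Crv H p.1 p.2}.ncard : ℝ) ≤
      ({p : ℤ × ℤ | Crv H p.1 p.2 ∧ (Adm M p ∧ GoodU p ∧ (Lam p).Infinite)}.ncard : ℝ) := by
  obtain ⟨P, X₀, c, hc, hP, h⟩ := mainU parts2 lb Pool.Agent.N615.PV.fam2 bad
    Pool.Agent.N954.PQ.tch Pool.Agent.N40.PQ.gen Pool.Agent.N40.PQ.spl N650.PM.gfr
    Pool.Agent.N273.PQ.finm Pool.Agent.N137.PV.tor Pool.Agent.N707.PQ.crv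
    (fun p => (Lam p).Infinite)
    (fun A B D hA hB hD hD8 hsq => lam_infinite parts2.p.ur parts2.p.spd hA hB hD hD8 hsq)
    M hM h2
  exact Pool.Agent.N607.PQ.cnt (fun p => Adm M p ∧ GoodU p ∧ (Lam p).Infinite) P X₀ c hc hP
    fun X hX Hh hHh => h X hX Hh hHh

end Pool.Agent.H14U
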