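import Pool.Agent.H14U.Cnt

/-!
# A positive proportion, uniformly over all admissible fields
-/

set_option autoImplicit false
set_option linter.all false

open Polynomial IsDedekindDomain WeierstrassCurve WeierstrassCurve.Affine NumberField
open Pool.Agent.TH115.GD
open scoped Classical IntermediateField

namespace Pool.Agent.H14U

open Pool.Agent.N922.PQ
open Pool.Agent.N874.PP (Tup chA chB gq tau Two Ev Sq1 U0 sW IsBeta Rt)
open Pool.Agent.N874.PM (PLoc Lies SelR ShaR S_LOC1M S_LOC2M)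

/-- Good over all admissible fields. -/
def GoodU (p : ℤ × ℤ) : Prop :=
  ∀ (M : Type) [Field M] [NumberField M], Adm M p → GoodV (M := M) (𝓞 M) p

/-- From the Selmer group to the other properties. -/
theorem goodV_of (hGFR : Pool.Agent.N874.PM.S_GFR) (hFINM : S_FINM) (hTOR : S_TOR)
    {M : Type} [Field M] [NumberField M] {p : ℤ × ℤ} (hadm : Adm M p)
    (hd : 4 * p.1 ^ 3 + 27 * p.2 ^ 2 ≠ 0) (hodd : Odd p.1) (h4 : (4 : ℤ) ∣ p.1 - p.2)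
    (hsel : SelR (𝓞 M) (sW (p.1 : M) (p.2 : M))) : GoodV (M := M) (𝓞 M) p := by
  obtain ⟨w₀, hw₀⟩ := exists_over (𝓞 M)
  have hur := val_two_of hadm.two
  have h6M : (6 : M) ≠ 0 := by norm_num
  have hdM : 4 * (p.1 : M) ^ 3 + 27 * (p.2 : M) ^ 2 ≠ 0 := by
    exact_mod_cast hd
  obtain ⟨h2, h3⟩ := hGFR M (𝓞 M) _ _ h6M hdM hsel
  have hfin := hFINM M _ _ hdM h2
  have htor := hTOR M (𝓞 M) w₀ (hur w₀ hw₀) _ _ hodd h4 hfin (by
    haveI := hfin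
    exact odd_card (G := Pt (sW (p.1 : M) (p.2 : M)) M) h2)
  exact ⟨hsel, htor, h3⟩

/-- The prime numbers `q` with `q ^ 2 ∣ a D ^ 2` and `q ^ 3 ∣ b D ^ 3` divide `D`. -/
theorem dvd_of_sq {a b D : ℤ} (hsq : Squarefree (dsc a b)) {q : ℤ} (hq : Prime q)
    (h2 : q ^ 2 ∣ a * D ^ 2) (h3 : q ^ 3 ∣ b * D ^ 3) : q ∣ D := by
  by_contra hD
  have hc : IsCoprime q D := (hq.irreducible.coprime_iff_not_dvd).2 hD
  have ha : q ^ 2 ∣ a := (IsCoprime.pow hc).dvd_of_dvd_mul_right h2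
  have hb : q ^ 3 ∣ b := (IsCoprime.pow hc).dvd_of_dvd_mul_right h3
  have h4 : q * q ∣ dsc a b := by
    unfold dsc
    obtain ⟨c, rfl⟩ := ha
    obtain ⟨d, rfl⟩ := hb
    exact ⟨4 * q ^ 4 * c ^ 3 + 27 * q ^ 4 * d ^ 2, by ring⟩
  exact hq.not_unit (hsq q h4)

/-- The field used for the choice of the primes is admissible. -/
theorem adm_base (H : Parts2) {M : Type} [Field M] [NumberField M] [IsGalois ℚ M] {n : ℕ}
    (hM : Module.finrank ℚ M = 2 ^ n)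
    (h2 : ∀ 𝔭 : Ideal (𝓞 M), 𝔭.IsPrime → (2 : 𝓞 M) ∉ 𝔭 ^ 2)
    {γ : M} {g : ℤ[X]} {δ : ℤ} (hG : Gen ℚ γ g δ) {a b : ℤ} {X' : ℕ}
    {S T J : Finset ℤ} {s A B : ℤ → ℤ} (hS : GoodS S s)
    (hF : Fam X' S s T A B a b) (hT : GoodT T A B) (hδ : ∀ P : ℤ, IsPr P → P ∣ δ → P ∈ T)
    (hdis : Disjoint S T) (hsp : ∀ Q ∈ S, SplitMod Q g) (hJ : J ⊆ S) :
    Adm M (a * (∏ Q ∈ J, Q) ^ 2, b * (∏ Q ∈ J, Q) ^ 3) := by
  have hT' : ∀ P ∈ T, IsPr P := fun P hP => (hT.2.2 P hP).1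
  refine ⟨inferInstance, ⟨n, hM⟩, h2, ?_, ?_⟩
  · intro l hl 𝔭 h𝔭 hmem z
    have hlP := isPr_of_nat hl
    have hne : 𝔭 ≠ ⊥ := by
      rintro rfl
      rw [pow_two, Ideal.mul_bot, Ideal.mem_bot, Nat.cast_eq_zero] at hmem
      exact hl.ne_zero hmem
    let w : HeightOneSpectrum (𝓞 M) := ⟨𝔭, h𝔭, hne⟩
    have hlw : Ov (l : ℤ) w := by
      unfold Ov
      rw [Int.cast_natCast]
      exact Ideal.pow_le_self two_ne_zero hmem
    -- `l` is in `T`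
    have hlT : (l : ℤ) ∈ T := by
      by_contra hlT
      have hnd : ¬ (l : ℤ) ∣ δ := fun h => hlT (hδ _ hlP h)
      have hδw : ¬ Ov δ w := fun h =>
        one_mem_of ((hlP.2.irreducible.coprime_iff_not_dvd).2 hnd) hlw h
      obtain ⟨v, hv⟩ := (H.p.ur ℚ M ℤ (𝓞 M) γ g δ hG).1 w hδw
      have e : w.valuation M ((l : ℤ) : M) = v.valuation ℚ ((l : ℤ) : ℚ) := by
        rw [← hv, map_intCast (algebraMap ℚ M)]
      have h3 : WithZero.exp (-1 : ℤ) ≤ w.valuation M ((l : ℤ) : M) := by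
        rw [e]
        exact val_sqfree hlP.2.irreducible.squarefree v
      have h4 : w.valuation M ((l : ℤ) : M) ≤ WithZero.exp (-((2 : ℕ) : ℤ)) := by
        have e1 : w.intValuation ((l : ℤ) : 𝓞 M) = w.valuation M ((l : ℤ) : M) := by
          rw [← HeightOneSpectrum.valuation_of_algebraMap (K := M)]
          exact congrArg _ (map_intCast (algebraMap (𝓞 M) M) (l : ℤ))
        rw [← e1, HeightOneSpectrum.intValuation_le_pow_iff_mem, Int.cast_natCast]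
        exact hmem
      have h5 := h3.trans h4
      rw [WithZero.exp_le_exp] at h5
      norm_num at h5
    have hD : IsCoprime (∏ Q ∈ J, Q) (l : ℤ) := by
      refine IsCoprime.prod_left fun Q hQ => ?_
      refine isCoprime_of (hS Q (hJ hQ)).1 hlP ?_
      rintro rfl
      exact Finset.disjoint_left.1 hdis (hJ hQ) hlT
    exact no_root_up hD (fam_nt hT hF hlT) z
  · intro q hq h2' h3' 𝔭 h𝔭 hmem x
    have hqP := isPr_of_nat hq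
    have hne : 𝔭 ≠ ⊥ := by
      rintro rfl
      rw [Ideal.mem_bot, Nat.cast_eq_zero] at hmem
      exact hq.ne_zero hmem
    let w : HeightOneSpectrum (𝓞 M) := ⟨𝔭, h𝔭, hne⟩
    have hqw : Ov (q : ℤ) w := by
      unfold Ov
      rw [Int.cast_natCast]
      exact hmem
    have hqD := dvd_of_sq hF.sq hqP.2 h2' h3'
    obtain ⟨Q, hQJ, hqQ⟩ := (hqP.2.dvd_finset_prod_iff (fun x => x)).1 hqD
    have hQS := hJ hQJ
    have hqQ' : (q : ℤ) = Q := by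
      by_contra hne
      obtain ⟨u, v, huv⟩ := isCoprime_of hqP (hS Q hQS).1 hne
      apply hqP.2.not_unit
      rw [isUnit_iff_dvd_one, ← huv]
      exact dvd_add (dvd_mul_left _ _) (dvd_mul_of_dvd_right hqQ _)
    have hδw : ¬ Ov δ w := not_ov_delta hδ hS hT' hdis hQS (hqQ' ▸ hqw)
    obtain ⟨v, hv⟩ := (H.p.ur ℚ M ℤ (𝓞 M) γ g δ hG).1 w hδw
    have hz : w.valuation M (x : M) ≤ 1 := w.valuation_le_one x
    obtain ⟨z₀, hz₀⟩ : ∃ z₀ : ℚ, w.valuation M ((x : M) - algebraMap ℚ M z₀) < 1 := by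
      by_cases h0 : (x : M) = 0
      · exact ⟨0, by rw [h0, map_zero, sub_zero, map_zero]; exact zero_lt_one⟩
      · obtain ⟨z₀, h⟩ := H.p.spd ℚ M (𝓞 M) γ g δ hG Q (hS Q hQS).1.2 (hsp Q hQS) w
          (hqQ' ▸ hqw) hδw (x : M) h0
        exact ⟨z₀, lt_of_lt_of_le h hz⟩
    have hz0 : v.valuation ℚ z₀ ≤ 1 := by
      rw [← hv]
      have e : algebraMap ℚ M z₀ = (x : M) - ((x : M) - algebraMap ℚ M z₀) := by ring
      rw [e]
      exact (Valuation.map_sub _ _ _).trans (max_le hz hz₀.le)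
    obtain ⟨z₁, hz₁⟩ := poly_approx v hz0
    refine ⟨z₁, ?_⟩
    have h2 : w.valuation M ((x : M) - (z₁ : M)) < 1 := by
      have e : (x : M) - (z₁ : M) = ((x : M) - algebraMap ℚ M z₀) +
          algebraMap ℚ M (z₀ - algebraMap ℤ ℚ z₁) := by
        rw [map_sub]
        simp
      rw [e]
      refine lt_of_le_of_lt (Valuation.map_add _ _ _) (max_lt hz₀ ?_)
      rw [hv]
      exact hz₁
    have e : (x : M) - (z₁ : M) = algebraMap (𝓞 M) M (x - (z₁ : 𝓞 M)) := by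
      rw [map_sub, map_intCast]
    rw [e, HeightOneSpectrum.valuation_lt_one_iff_mem] at h2
    exact h2

/-- The main theorem from the parts. The property `Ψ` is any further property of the curves. -/
theorem mainU (H : Parts2) (hLB : S_LB) (hFAM : S_FAM2) (hBAD : S_BAD)
    (hTCH : S_TCH) (hGEN : S_GEN) (hSPL : S_SPL) (hGFR : Pool.Agent.N874.PM.S_GFR)
    (hFINM : S_FINM) (hTOR : S_TOR) (hCRV : S_CRV) (Ψ : ℤ × ℤ → Prop)
    (hΨ : ∀ A B D : ℤ, Odd A → Odd B → 0 < D → D % 8 = 1 → Squarefree (dsc A B) →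
      Ψ (A * D ^ 2, B * D ^ 3))
    (M : Type) [Field M] [NumberField M] [IsGalois ℚ M] {n : ℕ}
    (hM : Module.finrank ℚ M = 2 ^ n)
    (h2 : ∀ 𝔭 : Ideal (𝓞 M), 𝔭.IsPrime → (2 : 𝓞 M) ∉ 𝔭 ^ 2) :
    ∃ (P X₀ : ℕ) (c : ℝ), 0 < c ∧ 1 ≤ P ∧ ∀ X : ℕ, X₀ ≤ X → ∀ H : ℕ, 27 * (X * P) ^ 6 ≤ H →
      c * (X : ℝ) ^ 5 ≤ ({p : ℤ × ℤ | Crv H p.1 p.2 ∧
        (Adm M p ∧ GoodU p ∧ Ψ p)}.ncard : ℝ) := by
  obtain ⟨κ, hLB'⟩ := hLB
  obtain ⟨γ, g, δ, hG, hdeg⟩ := hGEN M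
  obtain ⟨T₀, hT₀, hδ₀⟩ := exists_T₀ hG.ne
  obtain ⟨T, A, B, hTT, hT⟩ := hTCH T₀ hT₀
  have hδ : ∀ P : ℤ, IsPr P → P ∣ δ → P ∈ T := fun P h1 h2 => hTT (hδ₀ P h1 h2)
  obtain ⟨S, s, c, hS, hdis, hsp, hc, X₀, hX₀⟩ := good_card2 hFAM hBAD κ hT
    (fun Q => SplitMod Q g) (hSPL M γ g δ hG hdeg T)
  have hSpos : 0 < ∏ Q ∈ S, Q := Finset.prod_pos fun Q hQ => (hS Q hQ).1.1
  refine ⟨(∏ Q ∈ S, Q).toNat, X₀, c / 2 ^ S.card,
    by positivity, by omega, fun X hX Hh hHh => ?_⟩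
  have hN := hX₀ X hX
  set Hs := {p : ℤ × ℤ | Crv Hh p.1 p.2 ∧ (Adm M p ∧ GoodU p ∧ Ψ p)} with hH
  set G := {p : ℤ × ℤ | (Fam X S s T A B p.1 p.2 ∧ (4 : ℤ) ∣ p.1 - p.2) ∧
    ¬ LBad κ X S s p.1 p.2} with hG'
  have hHf : Hs.Finite := (crv_fin Hh).subset fun p hp => hp.1
  have hbd : 27 * ((X : ℤ) * ∏ Q ∈ S, Q) ^ 6 ≤ Hh := by
    have h1 : ((27 * (X * (∏ Q ∈ S, Q).toNat) ^ 6 : ℕ) : ℤ) ≤ Hh := by exact_mod_cast hHh
    have e1 : (((∏ Q ∈ S, Q).toNat : ℕ) : ℤ) = ∏ Q ∈ S, Q := Int.toNat_of_nonneg hSpos.le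
    rw [Nat.cast_mul, Nat.cast_pow, Nat.cast_mul, e1] at h1
    exact_mod_cast h1
  have hcard := card_fib hHf S
    (fun (J : Finset ℤ) (p : ℤ × ℤ) => (p.1 * (∏ Q ∈ J, Q) ^ 2, p.2 * (∏ Q ∈ J, Q) ^ 3)) (G := G) (by
      rintro p ⟨⟨hpF, hp4⟩, hnb⟩
      obtain ⟨J, hJ, hsel⟩ := selU H hGEN hLB' hS hpF hp4 hnb hT
      refine ⟨J, hJ, ?_⟩
      have hcrv := hCRV X Hh S T s A B p.1 p.2 hS hT hpF J hJ hbd
      have hD1 : 0 < (∏ Q ∈ J, Q) := Finset.prod_pos fun Q hQ => (hS Q (hJ hQ)).1.1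
      have hD8 : (∏ Q ∈ J, Q) % 8 = 1 := prod_mod8 fun Q hQ => (hS Q (hJ hQ)).2.1
      obtain ⟨ha, hb⟩ := odd_of (fam_nt hT hpF hT.1)
      have hAodd : Odd (p.1 * (∏ Q ∈ J, Q) ^ 2) := by
        refine ha.mul (Odd.pow ?_)
        rw [Int.odd_iff]
        omega
      have h4 : (4 : ℤ) ∣ p.1 * (∏ Q ∈ J, Q) ^ 2 - p.2 * (∏ Q ∈ J, Q) ^ 3 := by
        obtain ⟨k, hk⟩ : ∃ k, (∏ Q ∈ J, Q) = 8 * k + 1 := ⟨(∏ Q ∈ J, Q) / 8, by omega⟩
        obtain ⟨l, hl⟩ := hp4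
        have e : p.1 = p.2 + 4 * l := by linarith
        rw [hk, e]
        exact ⟨l * (8 * k + 1) ^ 2 - 2 * k * p.2 * (8 * k + 1) ^ 2, by ring⟩
      refine ⟨hcrv, adm_base H hM h2 hG hS hpF hT hδ hdis hsp hJ, ?_,
        hΨ p.1 p.2 _ ha hb hD1 hD8 hpF.sq⟩
      intro M' _ _ hadm
      exact goodV_of hGFR hFINM hTOR hadm hcrv.disc hAodd h4 (hsel M' hadm)) (by
      intro J hJ x hx y hy hxy
      have hD0 : (∏ Q ∈ J, Q) ≠ 0 := by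
        rw [Finset.prod_ne_zero_iff]
        exact fun Q hQ => (hS Q (hJ hQ)).1.2.ne_zero
      rw [Prod.mk.injEq] at hxy
      exact twist_inj hD0 hxy.1 hxy.2)
  have hcard' : (G.ncard : ℝ) ≤ 2 ^ S.card * Hs.ncard := by exact_mod_cast hcard
  calc c / 2 ^ S.card * (X : ℝ) ^ 5
      = c * (X : ℝ) ^ 5 / 2 ^ S.card := by ring
    _ ≤ (G.ncard : ℝ) / 2 ^ S.card := by gcongr
    _ ≤ (2 ^ S.card * Hs.ncard) / 2 ^ S.card := by gcongr
    _ = Hs.ncard := by field_simp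

end Pool.Agent.H14U
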