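import Pool.Agent.H14U.Main
import Pool.Agent.H14U.Cheb

/-!
# Quadratic extensions of admissible fields
-/

set_option autoImplicit false
set_option linter.all false

open Polynomial IsDedekindDomain NumberField
open scoped Classical IntermediateField

namespace Pool.Agent.H14U

open Pool.Agent.N922.PQ

section quad

variable {K K' : Type} [Field K] [NumberField K] [Field K'] [NumberField K'] [Algebra K K']

/-- The polynomial `X ^ 2 - X - k`. -/
noncomputable def gp (k : ℤ) : ℤ[X] := X ^ 2 - X - C k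

theorem gen_quad {k : ℤ} (hk : 4 * k + 1 ≠ 0) {x : K'} (hx : x ^ 2 = ((4 * k + 1 : ℤ) : K'))
    (htop : K⟮x⟯ = ⊤) : Gen K ((1 + x) / 2) (gp k) (4 * k + 1) := by
  have h2 : (2 : K') ≠ 0 := two_ne_zero
  refine ⟨?_, by unfold gp; monicity!, ?_, hk, ⟨-4, 2 * X - 1, ?_⟩⟩
  · rw [eq_top_iff, ← htop, IntermediateField.adjoin_simple_le_iff]
    have h1 := IntermediateField.mem_adjoin_simple_self K ((1 + x) / 2)
    have e : x = 2 * ((1 + x) / 2) - 1 := by field_simp; ring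
    have h3 : (2 : K') ∈ K⟮(1 + x) / 2⟯ := by
      have := (K⟮(1 + x) / 2⟯).algebraMap_mem 2
      simpa using this
    have h4 := sub_mem (mul_mem h3 h1) (one_mem (K⟮(1 + x) / 2⟯))
    rw [← e] at h4
    exact h4
  · unfold gp
    simp only [map_sub, map_pow, aeval_X, aeval_C]
    push_cast at hx
    have e : (algebraMap ℤ K') k = (k : K') := by simp
    rw [e]
    field_simp
    linear_combination hx
  · unfold gp
    simp only [derivative_sub, derivative_X_pow, derivative_X, derivative_C]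
    simp only [C_add, C_mul, C_1, map_ofNat]
    push_cast
    simp
    ring

theorem normal_quad [IsGalois ℚ K] {n : ℤ} {x : K'} (hx : x ^ 2 = (n : K'))
    (htop : K⟮x⟯ = ⊤) : IsGalois ℚ K' := by
  have hn : Normal ℚ K' := by
    rw [normal_iff]
    intro y
    refine ⟨IsIntegral.of_finite ℚ y, ?_⟩
    have hy : y ∈ IntermediateField.adjoin ℚ (Set.range (algebraMap K K') ∪ {x}) := by
      have h1 : y ∈ K⟮x⟯ := by rw [htop]; trivial
      induction h1 using IntermediateField.adjoin_induction with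
      | mem z hz =>
        rw [Set.mem_singleton_iff] at hz
        exact IntermediateField.subset_adjoin _ _ (Or.inr hz)
      | algebraMap z => exact IntermediateField.subset_adjoin _ _ (Or.inl ⟨z, rfl⟩)
      | add a b _ _ h1 h2 => exact add_mem h1 h2
      | inv a _ h1 => exact inv_mem h1
      | mul a b _ _ h1 h2 => exact mul_mem h1 h2
    refine IntermediateField.splits_of_mem_adjoin ℚ K' ?_ hy
    rintro z (⟨m, rfl⟩ | hz)
    · refine ⟨IsIntegral.of_finite ℚ _, ?_⟩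
      have h3 : minpoly ℚ (algebraMap K K' m) = minpoly ℚ m :=
        minpoly.algebraMap_eq (algebraMap K K').injective m
      rw [h3]
      have h4 := (Normal.splits (inferInstance : Normal ℚ K) m).map (algebraMap K K')
      rw [Polynomial.map_map] at h4
      have e : (algebraMap K K').comp (algebraMap ℚ K) = algebraMap ℚ K' := RingHom.ext_rat _ _
      rw [e] at h4
      exact h4
    · rw [Set.mem_singleton_iff] at hz
      subst hz
      refine ⟨IsIntegral.of_finite ℚ _, ?_⟩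
      have h3 : minpoly ℚ z ∣ (X ^ 2 - C (n : ℚ)) := by
        apply minpoly.dvd
        simp [hx]
      have h5 : (X ^ 2 - C (n : ℚ) : ℚ[X]) ≠ 0 := (by monicity! : (X ^ 2 - C (n : ℚ) : ℚ[X]).Monic).ne_zero
      have h6 : ((X ^ 2 - C (n : ℚ) : ℚ[X]).map (algebraMap ℚ K')) = (X - C z) * (X + C z) := by
        simp only [Polynomial.map_sub, Polynomial.map_pow, map_X, map_C]
        have e : algebraMap ℚ K' (n : ℚ) = z ^ 2 := by
          rw [hx, map_intCast]
        rw [e, C_pow]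
        ring
      have h7 : ((X ^ 2 - C (n : ℚ) : ℚ[X]).map (algebraMap ℚ K')).Splits := by
        rw [h6]
        refine (Splits.X_sub_C z).mul ?_
        have := Splits.X_sub_C (-z)
        simpa using this
      exact h7.of_dvd (by rw [h6]; exact mul_ne_zero (X_sub_C_ne_zero z) (X_add_C_ne_zero z)) (Polynomial.map_dvd _ h3)
  exact {}

theorem deg_quad {n : ℤ} {x : K'} (hx : x ^ 2 = (n : K'))
    (htop : K⟮x⟯ = ⊤) {m : ℕ} (hK : Module.finrank ℚ K = 2 ^ m) :
    ∃ m' : ℕ, Module.finrank ℚ K' = 2 ^ m' := by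
  have h1 := Module.finrank_mul_finrank ℚ K K'
  haveI : FiniteDimensional K K' := FiniteDimensional.right ℚ K K'
  have hint : IsIntegral K x := IsIntegral.of_finite K x
  have h2 : Module.finrank K K' = (minpoly K x).natDegree :=
    ((Field.primitive_element_iff_minpoly_natDegree_eq K x).1 htop).symm
  have h3 : minpoly K x ∣ (X ^ 2 - C (n : K)) := by
    apply minpoly.dvd
    simp [hx]
  have h4 : (X ^ 2 - C (n : K) : K[X]).natDegree = 2 := by compute_degree!
  have h5 : (minpoly K x).natDegree ≤ 2 := by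
    rw [← h4]
    refine natDegree_le_of_dvd h3 ?_
    intro h
    rw [h] at h4
    simp at h4
  have h6 : 0 < (minpoly K x).natDegree := minpoly.natDegree_pos hint
  rw [h2, hK] at h1
  rcases (by omega : (minpoly K x).natDegree = 1 ∨ (minpoly K x).natDegree = 2) with h | h
  · exact ⟨m, by rw [← h1, h, mul_one]⟩
  · exact ⟨m + 1, by rw [← h1, h, pow_succ]⟩

/-- The polynomial splits modulo `q` if `4 k + 1` is a square. -/
theorem split_quad {k q m : ℤ} (hq : ¬ 2 ∣ q) (hm : q ∣ m ^ 2 - (4 * k + 1)) :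
    SplitMod q (gp k) := by
  -- choose `m` odd
  obtain ⟨m, hm, hodd⟩ : ∃ m : ℤ, q ∣ m ^ 2 - (4 * k + 1) ∧ m % 2 = 1 := by
    rcases Int.emod_two_eq_zero_or_one m with h | h
    · refine ⟨m + q, ?_, by omega⟩
      have e : (m + q) ^ 2 - (4 * k + 1) = (m ^ 2 - (4 * k + 1)) + q * (2 * m + q) := by ring
      rw [e]
      exact dvd_add hm (dvd_mul_right _ _)
    · exact ⟨m, hm, h⟩
  obtain ⟨c, hc⟩ : ∃ c, m = 2 * c + 1 := ⟨m / 2, by omega⟩
  subst hc
  -- roots `c + 1` and `- c`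
  have h4 : q ∣ 4 * (c ^ 2 + c - k) := by
    have e : 4 * (c ^ 2 + c - k) = (2 * c + 1) ^ 2 - (4 * k + 1) := by ring
    rw [e]
    exact hm
  have hcop : IsCoprime q 4 := by
    have h2 : IsCoprime q 2 := by
      have := (Int.prime_two.irreducible.coprime_iff_not_dvd (n := q)).2 hq
      exact this.symm
    have : (4 : ℤ) = 2 * 2 := by norm_num
    rw [this]
    exact h2.mul_right h2
  obtain ⟨t, ht⟩ := hcop.dvd_of_dvd_mul_left h4
  refine ⟨{c + 1, -c}, C t, ?_⟩
  have e : (k : ℤ) = c ^ 2 + c - q * t := by linear_combination -ht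
  rw [e]
  unfold gp
  simp only [Multiset.insert_eq_cons, Multiset.map_cons, Multiset.map_singleton,
    Multiset.prod_cons, Multiset.prod_singleton, C_add, C_sub, C_mul, C_pow, C_neg, C_1]
  ring

/-- Quadratic extensions of admissible fields. -/
theorem adm_quad (hUR : S_UR) (hSPD : S_SPD) {p : ℤ × ℤ} {l : ℕ} (hl : l.Prime)
    (hl4 : l % 4 = 1) (hnr : ∀ t : ℤ, ¬ (l : ℤ) ∣ t ^ 3 + p.1 * t + p.2)
    (hq : ∀ q : ℕ, q.Prime → (q : ℤ) ^ 2 ∣ p.1 → (q : ℤ) ^ 3 ∣ p.2 →
      q ≠ 2 ∧ ∃ m : ℤ, (q : ℤ) ∣ m ^ 2 - (l : ℤ))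
    {x : K'} (hx : x ^ 2 = (l : K')) (htop : K⟮x⟯ = ⊤) (h : Adm K p) : Adm K' p := by
  haveI := h.galois
  obtain ⟨k, hk⟩ : ∃ k : ℤ, (l : ℤ) = 4 * k + 1 := ⟨(l : ℤ) / 4, by omega⟩
  have hlP := isPr_of_nat hl
  have hk0 : 4 * k + 1 ≠ 0 := by
    rw [← hk]
    exact_mod_cast hl.ne_zero
  have hx' : x ^ 2 = ((4 * k + 1 : ℤ) : K') := by
    rw [← hk, Int.cast_natCast]
    exact hx
  have hG := gen_quad (K := K) hk0 hx' htop
  rw [← hk] at hG
  obtain ⟨m, hm⟩ := h.deg
  -- a prime number different from `l` is ramified in `K'` only if it is ramified in `K`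
  have key : ∀ (𝔭 : Ideal (𝓞 K')) (h𝔭 : 𝔭.IsPrime) (r : ℕ), r.Prime → r ≠ l →
      (r : 𝓞 K') ∈ 𝔭 → ∃ (w' : HeightOneSpectrum (𝓞 K')) (w : HeightOneSpectrum (𝓞 K)),
        w'.asIdeal = 𝔭 ∧ (r : 𝓞 K) ∈ w.asIdeal ∧
        (∀ y : K, w'.valuation K' (algebraMap K K' y) = w.valuation K y) ∧
        ¬ Ov (l : ℤ) w' := by
    intro 𝔭 h𝔭 r hr hrl hmem
    have hne : 𝔭 ≠ ⊥ := by
      rintro rfl
      rw [Ideal.mem_bot, Nat.cast_eq_zero] at hmem
      exact hr.ne_zero hmem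
    let w' : HeightOneSpectrum (𝓞 K') := ⟨𝔭, h𝔭, hne⟩
    have hrw : Ov (r : ℤ) w' := by
      unfold Ov
      rw [Int.cast_natCast]
      exact hmem
    have hlw : ¬ Ov (l : ℤ) w' := by
      intro h'
      apply hrl
      have := below_unique (isPr_of_nat hr) hlP hrw h'
      exact_mod_cast this
    obtain ⟨w, hw⟩ := (hUR K K' (𝓞 K) (𝓞 K') _ _ _ hG).1 w' hlw
    refine ⟨w', w, rfl, ?_, hw, hlw⟩
    have h1 := (ov_down hw (r : ℤ)).1 hrw
    unfold Ov at h1
    rw [Int.cast_natCast] at h1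
    exact h1
  have key2 : ∀ (𝔭 : Ideal (𝓞 K')) (h𝔭 : 𝔭.IsPrime) (r : ℕ), r.Prime → r ≠ l →
      (r : 𝓞 K') ∈ 𝔭 ^ 2 → ∃ 𝔮 : Ideal (𝓞 K), 𝔮.IsPrime ∧ (r : 𝓞 K) ∈ 𝔮 ^ 2 := by
    intro 𝔭 h𝔭 r hr hrl hmem
    obtain ⟨w', w, h1, h2, h3, h4⟩ := key 𝔭 h𝔭 r hr hrl (Ideal.pow_le_self two_ne_zero hmem)
    refine ⟨w.asIdeal, w.isPrime, ?_⟩
    rw [← h1] at hmem
    have e1 : w'.intValuation (r : 𝓞 K') = w.intValuation (r : 𝓞 K) := by
      rw [← HeightOneSpectrum.valuation_of_algebraMap (K := K'),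
        ← HeightOneSpectrum.valuation_of_algebraMap (K := K)]
      have h5 := h3 (r : K)
      rw [map_natCast] at h5
      have h6 : algebraMap (𝓞 K') K' (r : 𝓞 K') = (r : K') := map_natCast _ _
      have h7 : algebraMap (𝓞 K) K (r : 𝓞 K) = (r : K) := map_natCast _ _
      exact (congrArg _ h6).trans (h5.trans (congrArg _ h7).symm)
    rw [← HeightOneSpectrum.intValuation_le_pow_iff_mem] at hmem ⊢
    rw [← e1]
    exact hmem
  refine ⟨normal_quad hx' htop, deg_quad hx' htop hm, ?_, ?_, ?_⟩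
  · intro 𝔭 h𝔭 hmem
    have hl2 : (2 : ℕ) ≠ l := by
      rintro rfl
      norm_num at hl4
    obtain ⟨𝔮, h1, h2⟩ := key2 𝔭 h𝔭 2 Nat.prime_two hl2 (by exact_mod_cast hmem)
    exact h.two 𝔮 h1 (by exact_mod_cast h2)
  · intro r hr 𝔭 h𝔭 hmem
    by_cases hrl : r = l
    · subst hrl
      exact hnr
    · obtain ⟨𝔮, h1, h2⟩ := key2 𝔭 h𝔭 r hr hrl hmem
      exact h.ram r hr 𝔮 h1 h2
  · intro q hqp h2 h3 𝔭 h𝔭 hmem y
    obtain ⟨hq2, t, ht⟩ := hq q hqp h2 h3
    have hql : q ≠ l := by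
      rintro rfl
      apply hnr 0
      have e : (0 : ℤ) ^ 3 + p.1 * 0 + p.2 = p.2 := by ring
      rw [e]
      exact (dvd_pow_self _ (by norm_num)).trans h3
    obtain ⟨w', w, h4, h5, h6, h7⟩ := key 𝔭 h𝔭 q hqp hql hmem
    subst h4
    have hqw' : Ov (q : ℤ) w' := by
      unfold Ov
      rw [Int.cast_natCast]
      exact hmem
    have hsp : SplitMod (q : ℤ) (gp k) := by
      refine split_quad (m := t) ?_ (by rw [← hk]; exact ht)
      intro h2q
      have h2q' : 2 ∣ q := by exact_mod_cast h2q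
      exact hq2 ((Nat.prime_dvd_prime_iff_eq Nat.prime_two hqp).1 h2q').symm
    have hy : w'.valuation K' (y : K') ≤ 1 := w'.valuation_le_one y
    obtain ⟨s₀, hs₀⟩ : ∃ s₀ : K, w'.valuation K' ((y : K') - algebraMap K K' s₀) < 1 := by
      by_cases h0 : (y : K') = 0
      · exact ⟨0, by rw [h0, map_zero, sub_zero, map_zero]; exact zero_lt_one⟩
      · obtain ⟨s₀, hs⟩ := hSPD K K' (𝓞 K') _ _ _ hG (q : ℤ) (isPr_of_nat hqp).2 hsp w' hqw' h7
          (y : K') h0
        exact ⟨s₀, lt_of_lt_of_le hs hy⟩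
    have hs1 : w.valuation K s₀ ≤ 1 := by
      rw [← h6]
      have e : algebraMap K K' s₀ = (y : K') - ((y : K') - algebraMap K K' s₀) := by ring
      rw [e]
      exact (Valuation.map_sub _ _ _).trans (max_le hy hs₀.le)
    obtain ⟨r, hr⟩ := w.exists_valuation_sub_lt_of_integer hs1 1
    rw [Units.val_one] at hr
    obtain ⟨n, hn⟩ := h.split q hqp h2 h3 w.asIdeal w.isPrime h5 r
    refine ⟨n, ?_⟩
    have h8 : w'.valuation K' ((y : K') - (n : K')) < 1 := by
      have e : (y : K') - (n : K') = ((y : K') - algebraMap K K' s₀) +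
          algebraMap K K' (algebraMap (𝓞 K) K (r - (n : 𝓞 K)) - (algebraMap (𝓞 K) K r - s₀)) := by
        have e1 : algebraMap (𝓞 K) K (n : 𝓞 K) = (n : K) := map_intCast _ _
        have e2 : algebraMap K K' (n : K) = (n : K') := map_intCast _ _
        rw [map_sub, map_sub, map_sub, e1, map_sub, e2]
        ring
      rw [e]
      refine lt_of_le_of_lt (Valuation.map_add _ _ _) (max_lt hs₀ ?_)
      rw [h6]
      refine lt_of_le_of_lt (Valuation.map_sub _ _ _) (max_lt ?_ hr)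
      rw [HeightOneSpectrum.valuation_lt_one_iff_mem]
      exact hn
    have e : (y : K') - (n : K') = algebraMap (𝓞 K') K' (y - (n : 𝓞 K')) := by
      rw [map_sub, map_intCast]
    rw [e, HeightOneSpectrum.valuation_lt_one_iff_mem] at h8
    exact h8

end quad

/-- The admissible prime numbers: adjoining the square root preserves admissibility. -/
def Lam (p : ℤ × ℤ) : Set ℕ := {l : ℕ | l.Prime ∧
  ∀ (K K' : Type) [Field K] [NumberField K] [Field K'] [NumberField K'] [Algebra K K'] (x : K'),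
    x ^ 2 = (l : K') → K⟮x⟯ = ⊤ → Adm K p → Adm K' p}

theorem lam_infinite (hUR : S_UR) (hSPD : S_SPD) {A B D : ℤ} (hA : Odd A) (hB : Odd B)
    (hD : 0 < D) (hD8 : D % 8 = 1) (hsq : Squarefree (dsc A B)) :
    (Lam (A * D ^ 2, B * D ^ 3)).Infinite := by
  have hD0 : D ≠ 0 := hD.ne'
  have hodd : ∀ z : ℤ, ¬ (2 : ℤ) ∣ z ^ 3 + A * z + B := by
    intro z hz
    obtain ⟨c, hc⟩ := hA
    obtain ⟨d, hd⟩ := hB
    have h1 : (z ^ 3 + A * z + B) % 2 = 1 := by
      have e : z ^ 3 + A * z + B = (z * (z + 1)) * (z - 1) + 2 * (z + c * z + d) + 1 := by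
        rw [hc, hd]
        ring
      have h2 : (2 : ℤ) ∣ z * (z + 1) := (Int.even_mul_succ_self z).two_dvd
      obtain ⟨t, ht⟩ := h2
      rw [e, ht]
      have e2 : 2 * t * (z - 1) + 2 * (z + c * z + d) + 1 = 1 + 2 * (t * (z - 1) + (z + c * z + d)) := by
        ring
      rw [e2, Int.add_mul_emod_self_left]
      norm_num
    omega
  have hirr : Irreducible (ff ℚ (A * D ^ 2) (B * D ^ 3)) := irr_tw (algebraMap ℚ ℚ_[2]) hodd hD0
  have hd0 : 4 * (A * D ^ 2) ^ 3 + 27 * (B * D ^ 3) ^ 2 ≠ 0 := by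
    have e : 4 * (A * D ^ 2) ^ 3 + 27 * (B * D ^ 3) ^ 2 = D ^ 6 * dsc A B := by
      unfold dsc
      ring
    rw [e]
    exact mul_ne_zero (pow_ne_zero _ hD0) hsq.ne_zero
  set S : Finset ℕ := D.natAbs.primeFactors with hS
  have hS' : ∀ q ∈ S, q.Prime ∧ q ≠ 2 := by
    intro q hq
    rw [hS, Nat.mem_primeFactors] at hq
    refine ⟨hq.1, ?_⟩
    rintro rfl
    have := Int.natCast_dvd.2 hq.2.1
    push_cast at this
    omega
  have hmem : ∀ q : ℕ, q.Prime → (q : ℤ) ^ 2 ∣ A * D ^ 2 → (q : ℤ) ^ 3 ∣ B * D ^ 3 → q ∈ S := by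
    intro q hq h2 h3
    rw [hS, Nat.mem_primeFactors]
    refine ⟨hq, ?_, by simpa using hD0⟩
    exact Int.natCast_dvd.1 (dvd_of_sq hsq (isPr_of_nat hq).2 h2 h3)
  refine (infinite_l hirr hd0 S hS').mono ?_
  rintro l ⟨hl, h1, h2, h3⟩
  refine ⟨hl, fun K K' _ _ _ _ _ x hx htop hadm => ?_⟩
  exact adm_quad hUR hSPD hl h2 h1 (fun q hq hq2 hq3 =>
    ⟨(hS' q (hmem q hq hq2 hq3)).2, h3 q (hmem q hq hq2 hq3)⟩) hx htop hadm

end Pool.Agent.H14U
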