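import Pool.Agent.H14U.Big
import Pool.Agent.H14U.Gal

/-!
# The conditions for the compositum with a cubic field

From the conditions on `M / ℚ` to the structure `Spl`.
-/

set_option autoImplicit false
set_option linter.all false

open NumberField IsDedekindDomain
open scoped Pointwise

namespace Pool.Agent.H14U

open Pool.Agent.N922.PQ
open Pool.Agent.N692.PMTOW (im sup_top normal_of_top)

section base

variable {M : Type} [Field M] [NumberField M]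

/-- The prime of `ℤ` generated by a prime number. -/
def primeZ {P : ℤ} (hP : IsPr P) : HeightOneSpectrum ℤ where
  asIdeal := Ideal.span {P}
  isPrime := (Ideal.span_singleton_prime hP.2.ne_zero).2 hP.2
  ne_bot := by
    rw [Ne, Ideal.span_singleton_eq_bot]
    exact hP.2.ne_zero

theorem liesOver_Z {P : ℤ} (hP : IsPr P) (w : HeightOneSpectrum (𝓞 M)) (h : Ov P w) :
    w.asIdeal.LiesOver (primeZ hP).asIdeal := by
  refine ⟨?_⟩
  have h1 : Ideal.span {P} ≤ w.asIdeal.under ℤ := by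
    rw [Ideal.span_singleton_le_iff_mem, Ideal.mem_comap]
    simpa [Ov] using h
  haveI : (Ideal.span {P} : Ideal ℤ).IsMaximal :=
    PrincipalIdealRing.isMaximal_of_irreducible hP.2.irreducible
  exact (this.eq_of_le (Ideal.IsPrime.under ℤ w.asIdeal).ne_top h1)

theorem val_P {P : ℤ} (hP : IsPr P) : (primeZ hP).valuation ℚ (P : ℚ) = WithZero.exp (-1 : ℤ) := by
  have e : (P : ℚ) = algebraMap ℤ ℚ P := by simp
  rw [e, HeightOneSpectrum.valuation_of_algebraMap]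
  exact HeightOneSpectrum.intValuation_singleton _ hP.2.ne_zero rfl

variable [IsGalois ℚ M]

/-- The action on the ring of integers is a Galois action over `ℤ`. -/
theorem galZ : IsGaloisGroup Gal(M/ℚ) ℤ (𝓞 M) := IsGaloisGroup.of_isFractionRing _ _ _ ℚ M

theorem inertia_of_val {P : ℤ} (hP : IsPr P) (w : HeightOneSpectrum (𝓞 M)) (h : Ov P w)
    (hv : w.valuation M (P : M) = WithZero.exp (-1 : ℤ)) : w.asIdeal.inertia Gal(M/ℚ) = ⊥ := by
  haveI := liesOver_Z hP w h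
  haveI := galZ (M := M)
  have h2 := HeightOneSpectrum.valuation_liesOver M (primeZ hP) w (P : ℚ)
  rw [val_P, map_intCast, hv, Ideal.ramificationIdx'_eq_ramificationIdx _ _ (primeZ hP).ne_bot,
    ← WithZero.exp_nsmul, WithZero.exp_inj] at h2
  have h3 : w.asIdeal.ramificationIdx ℤ = 1 := by
    have : (w.asIdeal.ramificationIdx ℤ : ℤ) = 1 := by
      simpa using h2
    exact_mod_cast this
  haveI : Finite (ℤ ⧸ (primeZ hP).asIdeal) :=
    Ideal.finiteQuotientOfFreeOfNeBot _ (primeZ hP).ne_bot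
  have h1 := Ideal.card_inertia_eq_ramificationIdxIn (G := Gal(M/ℚ)) (primeZ hP).asIdeal w.asIdeal
  rw [Ideal.ramificationIdxIn_eq_ramificationIdx (primeZ hP).asIdeal w.asIdeal Gal(M/ℚ), h3] at h1
  exact Subgroup.eq_bot_of_card_eq _ h1

theorem stab_of_val {P : ℤ} (hP : IsPr P) (w : HeightOneSpectrum (𝓞 M)) (h : Ov P w)
    (hv : w.valuation M (P : M) = WithZero.exp (-1 : ℤ))
    (hr : ∀ z : 𝓞 M, ∃ n : ℤ, z - (n : 𝓞 M) ∈ w.asIdeal) :
    MulAction.stabilizer Gal(M/ℚ) w.asIdeal = ⊥ := by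
  haveI := liesOver_Z hP w h
  haveI := galZ (M := M)
  haveI : Finite (ℤ ⧸ (primeZ hP).asIdeal) :=
    Ideal.finiteQuotientOfFreeOfNeBot _ (primeZ hP).ne_bot
  have h1 := Ideal.card_stabilizer_eq_card_inertia_mul_finrank (G := Gal(M/ℚ))
    (primeZ hP).asIdeal w.asIdeal
  rw [inertia_of_val hP w h hv, Subgroup.card_bot, one_mul] at h1
  haveI := (primeZ hP).isMaximal
  haveI := w.isMaximal
  rw [Ideal.inertiaDeg_eq_of_isMaximal (primeZ hP).asIdeal w.asIdeal] at h1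
  letI : Field (ℤ ⧸ (primeZ hP).asIdeal) := Ideal.Quotient.field _
  have h3 : Function.Surjective (algebraMap (ℤ ⧸ (primeZ hP).asIdeal) (𝓞 M ⧸ w.asIdeal)) := by
    intro z
    obtain ⟨z, rfl⟩ := Ideal.Quotient.mk_surjective z
    obtain ⟨n, hn⟩ := hr z
    refine ⟨Ideal.Quotient.mk _ n, ?_⟩
    have e : algebraMap (ℤ ⧸ (primeZ hP).asIdeal) (𝓞 M ⧸ w.asIdeal) (Ideal.Quotient.mk _ n) =
        Ideal.Quotient.mk w.asIdeal (algebraMap ℤ (𝓞 M) n) := rfl
    rw [e, eq_comm, Ideal.Quotient.eq]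
    simpa using hn
  have h4 : Module.finrank (ℤ ⧸ (primeZ hP).asIdeal) (𝓞 M ⧸ w.asIdeal) = 1 := by
    refine (Algebra.finrank_eq_one_iff_bijective_algebraMap).2 ⟨?_, h3⟩
    exact (algebraMap (ℤ ⧸ (primeZ hP).asIdeal) (𝓞 M ⧸ w.asIdeal)).injective
  rw [h4] at h1
  exact Subgroup.eq_bot_of_card_eq _ h1

end base

section comp

variable {L M Ω : Type} [Field L] [NumberField L] [Field M] [NumberField M]
  [Field Ω] [NumberField Ω] [Algebra L Ω] [Algebra M Ω] [IsGalois ℚ M]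

theorem ov_under {F F' : Type} [Field F] [NumberField F] [Field F'] [NumberField F']
    [Algebra F F'] (P : ℤ) (𝔓 : HeightOneSpectrum (𝓞 F')) :
    Ov P (𝔓.under (𝓞 F)) ↔ Ov P 𝔓 := by
  unfold Ov
  change algebraMap (𝓞 F) (𝓞 F') (P : 𝓞 F) ∈ 𝔓.asIdeal ↔ _
  rw [map_intCast]

theorem spl_of {n : ℕ} (hM : Module.finrank ℚ M = 2 ^ n) (hL : Module.finrank ℚ L = 3)
    (hΩ : Module.finrank M Ω = 3) {J T : Finset ℤ} (hJ : ∀ Q ∈ J, IsPr Q)
    (hT : ∀ P ∈ T, IsPr P) (hdis : Disjoint J T)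
    (um : ∀ w : HeightOneSpectrum (𝓞 M), (∀ P ∈ T, ¬ Ov P w) → ∀ P : ℤ, IsPr P → Ov P w →
      w.valuation M (P : M) = WithZero.exp (-1 : ℤ))
    (sm : ∀ Q ∈ J, ∀ w : HeightOneSpectrum (𝓞 M), Ov Q w → ∀ z : 𝓞 M, ∃ n : ℤ,
      z - (n : 𝓞 M) ∈ w.asIdeal) :
    Spl L M Ω (𝓞 L) (𝓞 Ω) (𝓞 M) J T := by
  have htop := sup_top (K := ℚ) (L := L) (M := M) (Ω := Ω) hM hL hΩ
  haveI : Normal L Ω := normal_of_top (K := ℚ) (L := L) (M := M) (Ω := Ω) htop
  haveI : IsGalois L Ω := {}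
  have ud : ∀ 𝔓' : HeightOneSpectrum (𝓞 Ω), (∀ P ∈ T, ¬ Ov P 𝔓') →
      ∀ x : L, 𝔓'.valuation Ω (algebraMap L Ω x) = (𝔓'.under (𝓞 L)).valuation L x := by
    intro 𝔓' h x
    have h1 : ∀ P ∈ T, ¬ Ov P (𝔓'.under (𝓞 M)) := fun P hP h' => h P hP ((ov_under P 𝔓').1 h')
    obtain ⟨P, hP, hP'⟩ := exists_below (𝔓'.under (𝓞 M))
    have h2 := inertia_of_val hP _ hP' (um _ h1 P hP hP')
    have h3 := inertia_bot (K := ℚ) htop 𝔓'.asIdeal h2
    exact val_eq (𝔓'.under (𝓞 L)) 𝔓' ⟨rfl⟩ h3 x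
  refine ⟨um, sm, fun 𝔓' h => ⟨𝔓'.under (𝓞 L), ud 𝔓' h⟩, fun 𝔓 h => ?_, fun Q hQ 𝔓' hQ' s hs => ?_⟩
  · obtain ⟨P, hPm, hP⟩ := Ideal.exists_maximal_ideal_liesOver_of_isIntegral (S := 𝓞 Ω) 𝔓.asIdeal
    have hne : P ≠ ⊥ := by
      rintro rfl
      apply 𝔓.ne_bot
      rw [hP.over, Ideal.under_bot]
    let 𝔓' : HeightOneSpectrum (𝓞 Ω) := ⟨P, hPm.isPrime, hne⟩
    have e : 𝔓'.under (𝓞 L) = 𝔓 := HeightOneSpectrum.ext hP.over.symm
    refine ⟨𝔓', ?_⟩
    have h1 := ud 𝔓' (by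
      intro P hP h'
      apply h P hP
      rw [← e, ov_under]
      exact h')
    rw [e] at h1
    exact h1
  · have hnT : ∀ P ∈ T, ¬ Ov P 𝔓' := by
      intro P hP h'
      have : Q = P := below_unique (hJ Q hQ) (hT P hP) hQ' h'
      exact Finset.disjoint_left.1 hdis hQ (this ▸ hP)
    have h1 : ∀ P ∈ T, ¬ Ov P (𝔓'.under (𝓞 M)) := fun P hP h' => hnT P hP ((ov_under P 𝔓').1 h')
    have hQw : Ov Q (𝔓'.under (𝓞 M)) := (ov_under Q 𝔓').2 hQ'
    have h2 := stab_of_val (hJ Q hQ) _ hQw (um _ h1 Q (hJ Q hQ) hQw) (sm Q hQ _ hQw)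
    have h3 := stab_bot (K := ℚ) htop 𝔓'.asIdeal h2
    have h4 := res_eq (𝔓'.under (𝓞 L)) 𝔓' ⟨rfl⟩ h3
    have hv := ud 𝔓' hnT
    obtain ⟨t, ht⟩ := (𝔓'.under (𝓞 L)).valuation_surjective L (𝔓'.valuation Ω s)
    have hs0 : 𝔓'.valuation Ω s ≠ 0 := (Valuation.ne_zero_iff _).2 hs
    have ht0 : t ≠ 0 := by
      rintro rfl
      rw [map_zero] at ht
      exact hs0 ht.symm
    have ht' : 𝔓'.valuation Ω (algebraMap L Ω t) = 𝔓'.valuation Ω s := by rw [hv, ht]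
    have hq : 𝔓'.valuation Ω (s / algebraMap L Ω t) = 1 := by
      rw [map_div₀, ht', div_self hs0]
    obtain ⟨r, hr⟩ := 𝔓'.exists_valuation_sub_lt_of_integer hq.le 1
    rw [Units.val_one] at hr
    obtain ⟨y, hy⟩ := h4 r
    have h5 : 𝔓'.valuation Ω (s / algebraMap L Ω t - algebraMap L Ω (y : L)) < 1 := by
      have e : s / algebraMap L Ω t - algebraMap L Ω (y : L) =
          algebraMap (𝓞 Ω) Ω (r - algebraMap (𝓞 L) (𝓞 Ω) y) -
            (algebraMap (𝓞 Ω) Ω r - s / algebraMap L Ω t) := by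
        rw [map_sub]
        have e2 : algebraMap (𝓞 Ω) Ω (algebraMap (𝓞 L) (𝓞 Ω) y) = algebraMap L Ω (y : L) := rfl
        rw [e2]
        ring
      rw [e]
      refine lt_of_le_of_lt (Valuation.map_sub _ _ _) (max_lt ?_ hr)
      rw [HeightOneSpectrum.valuation_lt_one_iff_mem]
      exact hy
    refine ⟨t * (y : L), ?_⟩
    have e : s - algebraMap L Ω (t * (y : L)) =
        algebraMap L Ω t * (s / algebraMap L Ω t - algebraMap L Ω (y : L)) := by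
      have : algebraMap L Ω t ≠ 0 := by
        simpa using ht0
      rw [map_mul]
      field_simp
    rw [e, map_mul, ht']
    have hpos : 0 < 𝔓'.valuation Ω s := zero_lt_iff.2 hs0
    calc 𝔓'.valuation Ω s * 𝔓'.valuation Ω (s / algebraMap L Ω t - algebraMap L Ω (y : L))
        < 𝔓'.valuation Ω s * 1 := mul_lt_mul_of_pos_left h5 hpos
      _ = 𝔓'.valuation Ω s := mul_one _

end comp

end Pool.Agent.H14U
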